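import Mathlib

/-!
# Stable solutions without a sign condition: definitions (MP_de3e90_an)
-/

set_option autoImplicit false

open MeasureTheory Set Filter Topology
open scoped ContDiff

namespace Pool.Agent.H94.Stab

/-- Euclidean space. -/
abbrev E (n : ℕ) := EuclideanSpace ℝ (Fin n)

variable {n : ℕ}

/-- `i`-th partial derivative. -/
noncomputable def pd (i : Fin n) (g : E n → ℝ) (x : E n) : ℝ :=
  fderiv ℝ g x (EuclideanSpace.single i (1 : ℝ))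

/-- Smooth test function with compact support contained in `Ω`. -/
structure Test (Ω : Set (E n)) (φ : E n → ℝ) : Prop where
  smooth : ContDiff ℝ ∞ φ
  compact : HasCompactSupport φ
  sub : tsupport φ ⊆ Ω

/-- `gsq u x = |∇u(x)|²`. -/
noncomputable def gsq (u : E n → ℝ) (x : E n) : ℝ := ∑ i, (pd i u x) ^ 2

/-- `gr u x = |∇u(x)|`. -/
noncomputable def gr (u : E n → ℝ) (x : E n) : ℝ := Real.sqrt (gsq u x)

/-- `ν = ∇u/|∇u|` (`0` at critical points). -/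
noncomputable def nu (u : E n → ℝ) (i : Fin n) (x : E n) : ℝ := pd i u x / gr u x

/-- `W = D²u + f(u) ν⊗ν` (equal to `D²u` at critical points, where `ν = 0`). -/
noncomputable def Wt (f : ℝ → ℝ) (u : E n → ℝ) (i j : Fin n) (x : E n) : ℝ :=
  pd i (pd j u) x + f (u x) * nu u i x * nu u j x

/-- `|W|²`. -/
noncomputable def Wsq (f : ℝ → ℝ) (u : E n → ℝ) (x : E n) : ℝ := ∑ i, ∑ j, (Wt f u i j x) ^ 2

/-- `c = x·∇u`. -/
noncomputable def cc (u : E n → ℝ) (x : E n) : ℝ := ∑ i, x i * pd i u x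

/-- `x·ν`. -/
noncomputable def xnu (u : E n → ℝ) (x : E n) : ℝ := ∑ i, x i * nu u i x

/-- `c_E = |∇u|²/2 + F(u)`. -/
noncomputable def cE (F : ℝ → ℝ) (u : E n → ℝ) (x : E n) : ℝ := gsq u x / 2 + F (u x)

/-- The second variation form `Q(ξ) = ∫ |∇ξ|² - f'(u) ξ²`. -/
noncomputable def Qf (f : ℝ → ℝ) (u ξ : E n → ℝ) : ℝ :=
  ∫ x, (gsq ξ x - deriv f (u x) * ξ x ^ 2)

/-- `u` (smooth on the whole space) is a stable solution of `-Δu = f(u)` in the open set `Ω`,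
`F' = f`. -/
structure Stable (Ω : Set (E n)) (f F : ℝ → ℝ) (u : E n → ℝ) : Prop where
  isOpen : IsOpen Ω
  smooth : ContDiff ℝ ∞ u
  f_C1 : ContDiff ℝ 1 f
  F_deriv : ∀ s, HasDerivAt F (f s) s
  eqn : ∀ x ∈ Ω, ∑ i, pd i (pd i u) x = - f (u x)
  stab : ∀ ξ, Test Ω ξ → 0 ≤ Qf f u ξ

/-- `DD u ψ = ∫ |∇u|² |x|^{2-n} ψ(log|x|) dx = ∫ D(t) ψ(t) dt`. -/
noncomputable def DD (u : E n → ℝ) (ψ : ℝ → ℝ) : ℝ :=
  ∫ x, gsq u x * ‖x‖ ^ (2 - (n : ℝ)) * ψ (Real.log ‖x‖)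

/-- `RR u ψ = ∫ c² |x|^{-n} ψ(log|x|) dx = ∫ R(t) ψ(t) dt`. -/
noncomputable def RR (u : E n → ℝ) (ψ : ℝ → ℝ) : ℝ :=
  ∫ x, (cc u x) ^ 2 * ‖x‖ ^ (-(n : ℝ)) * ψ (Real.log ‖x‖)

/-- Smooth compactly supported function on the line (function of `t = log|x|`). -/
def Bump1 (g : ℝ → ℝ) : Prop := ContDiff ℝ ∞ g ∧ HasCompactSupport g

/-- The annulus `e^{-k} < |x| < e^k`. -/
def Ann (n : ℕ) (k : ℝ) : Set (E n) := {x | Real.exp (-k) < ‖x‖ ∧ ‖x‖ < Real.exp k}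

/-- The forbidden sequences of Theorem B. -/
structure BadSeq (u : ℕ → E n → ℝ) (f F : ℕ → ℝ → ℝ) : Prop where
  st : ∀ k : ℕ, Stable (Ann n k) (f k) (F k) (u k)
  R0 : ∀ ψ, Bump1 ψ → Tendsto (fun k => RR (u k) ψ) atTop (𝓝 0)
  D1 : ∀ ψ, Bump1 ψ → Tendsto (fun k => DD (u k) ψ) atTop (𝓝 (∫ t, ψ t))

/-- A fixed smooth probability kernel supported in the ball of radius `ρ`. -/
noncomputable def mk (ρ : ℝ) : E n → ℝ :=
  if h : 0 < ρ then
    (⟨ρ / 2, ρ, by linarith, by linarith⟩ : ContDiffBump (0 : E n)).normed volume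
  else 0

/-- Mollification. -/
noncomputable def mol (ρ : ℝ) (g : E n → ℝ) (x : E n) : ℝ := ∫ y, mk ρ y * g (x - y)

/-- smooth step `sin (π/2 σ(t))`, `0` for `t ≤ 0`, `1` for `t ≥ 1`. -/
noncomputable def sg (t : ℝ) : ℝ := Real.sin (Real.pi / 2 * Real.smoothTransition t)

/-- `cos (π/2 σ(t))`, `1` for `t ≤ 0`, `0` for `t ≥ 1`; `sg² + cg² = 1`. -/
noncomputable def cg (t : ℝ) : ℝ := Real.cos (Real.pi / 2 * Real.smoothTransition t)

/-- `ζ = (sg²)'`: a smooth probability density supported in `[0,1]`. -/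
noncomputable def zeta (t : ℝ) : ℝ := 2 * sg t * deriv sg t

/-- `d(s) = ∫ D(t) ζ(t-s) dt`. -/
noncomputable def dd (u : E n → ℝ) (s : ℝ) : ℝ := DD u (fun t => zeta (t - s))

/-- `∫_a^b R(t) dt`. -/
noncomputable def RI (u : E n → ℝ) (a b : ℝ) : ℝ :=
  RR u (Set.indicator (Set.Ico a b) (fun _ => (1 : ℝ)))

end Pool.Agent.H94.Stab
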