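import Pool.Agent.H94.Stab.Defs

/-!
# Calculus API for MP_de3e90_an
-/

set_option autoImplicit false

open MeasureTheory Set Filter Topology
open scoped ContDiff

namespace Pool.Agent.H94.Stab

variable {n : ℕ}

/-! ### partial derivatives -/

theorem pd_add {g h : E n → ℝ} {x : E n} (i : Fin n) (hg : DifferentiableAt ℝ g x)
    (hh : DifferentiableAt ℝ h x) : pd i (fun y => g y + h y) x = pd i g x + pd i h x := by
  unfold pd; rw [show (fun y => g y + h y) = g + h from rfl, fderiv_add hg hh]; rfl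

theorem pd_sub {g h : E n → ℝ} {x : E n} (i : Fin n) (hg : DifferentiableAt ℝ g x)
    (hh : DifferentiableAt ℝ h x) : pd i (fun y => g y - h y) x = pd i g x - pd i h x := by
  unfold pd; rw [show (fun y => g y - h y) = g - h from rfl, fderiv_sub hg hh]; rfl

theorem pd_neg {g : E n → ℝ} {x : E n} (i : Fin n) : pd i (fun y => - g y) x = - pd i g x := by
  unfold pd; rw [show (fun y => - g y) = - g from rfl, fderiv_neg]; rfl

theorem pd_mul {g h : E n → ℝ} {x : E n} (i : Fin n) (hg : DifferentiableAt ℝ g x)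
    (hh : DifferentiableAt ℝ h x) :
    pd i (fun y => g y * h y) x = pd i g x * h x + g x * pd i h x := by
  unfold pd
  rw [show (fun y => g y * h y) = g * h from rfl, fderiv_mul hg hh]
  simp only [add_apply, smul_apply, smul_eq_mul]
  ring

theorem pd_const (i : Fin n) (c : ℝ) (x : E n) : pd i (fun _ => c) x = 0 := by
  unfold pd; simp

theorem pd_const_mul {g : E n → ℝ} {x : E n} (i : Fin n) (c : ℝ) (hg : DifferentiableAt ℝ g x) :
    pd i (fun y => c * g y) x = c * pd i g x := by
  rw [pd_mul i (differentiableAt_const _) hg, pd_const]; ring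

theorem pd_mul_const {g : E n → ℝ} {x : E n} (i : Fin n) (c : ℝ) (hg : DifferentiableAt ℝ g x) :
    pd i (fun y => g y * c) x = pd i g x * c := by
  rw [pd_mul i hg (differentiableAt_const _), pd_const]; ring

theorem pd_sum {ι : Type*} {s : Finset ι} {g : ι → E n → ℝ} {x : E n} (i : Fin n)
    (hg : ∀ a ∈ s, DifferentiableAt ℝ (g a) x) :
    pd i (fun y => ∑ a ∈ s, g a y) x = ∑ a ∈ s, pd i (g a) x := by
  unfold pd
  rw [fderiv_fun_sum hg]
  simp

theorem pd_comp {φ : ℝ → ℝ} {g : E n → ℝ} {x : E n} (i : Fin n)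
    (hφ : DifferentiableAt ℝ φ (g x)) (hg : DifferentiableAt ℝ g x) :
    pd i (fun y => φ (g y)) x = deriv φ (g x) * pd i g x := by
  unfold pd
  have h := (hφ.hasFDerivAt.comp x hg.hasFDerivAt).fderiv
  rw [show (fun y => φ (g y)) = φ ∘ g from rfl, h]
  simp only [ContinuousLinearMap.comp_apply]
  rw [← fderiv_apply_one_eq_deriv]
  conv_lhs => rw [← mul_one (fderiv ℝ g x _), ← smul_eq_mul (fderiv ℝ g x _) 1, map_smul]
  simp [mul_comm]

theorem pd_comp' {φ : ℝ → ℝ} {φ' : ℝ} {g : E n → ℝ} {x : E n} (i : Fin n)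
    (hφ : HasDerivAt φ φ' (g x)) (hg : DifferentiableAt ℝ g x) :
    pd i (fun y => φ (g y)) x = φ' * pd i g x := by
  rw [pd_comp i hφ.differentiableAt hg, hφ.deriv]

theorem pd_pow {g : E n → ℝ} {x : E n} (i : Fin n) (m : ℕ) (hg : DifferentiableAt ℝ g x) :
    pd i (fun y => g y ^ m) x = m * g x ^ (m - 1) * pd i g x := by
  rw [pd_comp' (φ := fun s => s ^ m) i (hasDerivAt_pow m (g x)) hg]

theorem pd_sq {g : E n → ℝ} {x : E n} (i : Fin n) (hg : DifferentiableAt ℝ g x) :
    pd i (fun y => g y ^ 2) x = 2 * g x * pd i g x := by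
  rw [pd_pow i 2 hg]; norm_num

theorem pd_sqrt {g : E n → ℝ} {x : E n} (i : Fin n) (hg : DifferentiableAt ℝ g x)
    (h0 : g x ≠ 0) : pd i (fun y => Real.sqrt (g y)) x = pd i g x / (2 * Real.sqrt (g x)) := by
  rw [pd_comp' i (Real.hasDerivAt_sqrt h0) hg]; ring

theorem pd_inv {g : E n → ℝ} {x : E n} (i : Fin n) (hg : DifferentiableAt ℝ g x)
    (h0 : g x ≠ 0) : pd i (fun y => (g y)⁻¹) x = - pd i g x / g x ^ 2 := by
  rw [pd_comp' i (hasDerivAt_inv h0) hg]
  rw [neg_mul, inv_mul_eq_div, neg_div]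

theorem pd_div {g h : E n → ℝ} {x : E n} (i : Fin n) (hg : DifferentiableAt ℝ g x)
    (hh : DifferentiableAt ℝ h x) (h0 : h x ≠ 0) :
    pd i (fun y => g y / h y) x = (pd i g x * h x - g x * pd i h x) / h x ^ 2 := by
  have hinv : DifferentiableAt ℝ (fun y => (h y)⁻¹) x := hh.inv h0
  simp only [div_eq_mul_inv]
  rw [pd_mul i hg hinv, pd_inv i hh h0]
  field_simp
  ring

theorem pd_coord (i j : Fin n) (x : E n) : pd i (fun y : E n => y j) x = if i = j then 1 else 0 := by
  unfold pd
  have : (fun y : E n => y j) = EuclideanSpace.proj (𝕜 := ℝ) j := rfl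
  rw [this, ContinuousLinearMap.fderiv]
  simp [eq_comm]

theorem pd_congr_nhds {g h : E n → ℝ} {x : E n} (i : Fin n) (hgh : g =ᶠ[𝓝 x] h) :
    pd i g x = pd i h x := by
  unfold pd; rw [hgh.fderiv_eq]

theorem pd_shift (i : Fin n) (g : E n → ℝ) (v x : E n) :
    pd i (fun y => g (y + v)) x = pd i g (x + v) := by
  unfold pd
  rw [fderiv_comp_add_right]

theorem contDiff_pd {g : E n → ℝ} {m : WithTop ℕ∞} (i : Fin n) (hg : ContDiff ℝ (m + 1) g) :
    ContDiff ℝ m (pd i g) := by
  unfold pd
  exact (hg.fderiv_right le_rfl).clm_apply contDiff_const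

theorem contDiff_pd_infty {g : E n → ℝ} (i : Fin n) (hg : ContDiff ℝ ∞ g) :
    ContDiff ℝ ∞ (pd i g) := contDiff_pd i (by simpa using hg)

theorem continuous_pd {g : E n → ℝ} (i : Fin n) (hg : ContDiff ℝ 1 g) :
    Continuous (pd i g) := (contDiff_pd (m := 0) i (by simpa using hg)).continuous

theorem pd_comm {g : E n → ℝ} (hg : ContDiff ℝ 2 g) (i j : Fin n) (x : E n) :
    pd i (pd j g) x = pd j (pd i g) x := by
  have hd : DifferentiableAt ℝ (fderiv ℝ g) x :=
    ((hg.fderiv_right (m := 1) (by norm_num)).differentiable (by norm_num)) x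
  have key : ∀ i j : Fin n, pd i (pd j g) x =
      (fderiv ℝ (fderiv ℝ g) x (EuclideanSpace.single i (1:ℝ))) (EuclideanSpace.single j (1:ℝ)) := by
    intro i j
    unfold pd
    rw [fderiv_clm_apply hd (differentiableAt_const _)]
    simp
  rw [key i j, key j i]
  have hs : IsSymmSndFDerivAt ℝ g x :=
    (hg.contDiffAt).isSymmSndFDerivAt (by simp)
  exact hs _ _

/-! ### integration by parts -/

theorem tsupport_pd_subset (i : Fin n) (g : E n → ℝ) : tsupport (pd i g) ⊆ tsupport g := by
  refine closure_minimal ?_ (isClosed_tsupport g)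
  intro x hx
  by_contra hcon
  apply hx
  have h0 : g =ᶠ[𝓝 x] fun _ => (0:ℝ) := by
    have := (isClosed_tsupport g).isOpen_compl.mem_nhds hcon
    filter_upwards [this] with y hy
    exact image_eq_zero_of_notMem_tsupport hy
  rw [pd_congr_nhds i h0, pd_const]

theorem HasCompactSupport.pd' {g : E n → ℝ} (i : Fin n) (hg : HasCompactSupport g) :
    HasCompactSupport (pd i g) :=
  hg.of_isClosed_subset (isClosed_tsupport _) (tsupport_pd_subset i g)

theorem integral_pd_eq_zero {g : E n → ℝ} (i : Fin n) (hg : ContDiff ℝ 1 g)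
    (hc : HasCompactSupport g) : ∫ x, pd i g x = 0 := by
  -- choose a test function equal to one on the support: use the product with a bump
  have hint : Integrable g volume := hg.continuous.integrable_of_hasCompactSupport hc
  have hint' : Integrable (pd i g) volume :=
    (continuous_pd i hg).integrable_of_hasCompactSupport (HasCompactSupport.pd' i hc)
  obtain ⟨R, hR⟩ := hc.isCompact.isBounded.subset_closedBall (0 : E n)
  have hR' : tsupport g ⊆ Metric.closedBall (0 : E n) (|R| + 1) :=
    hR.trans (Metric.closedBall_subset_closedBall (by have := le_abs_self R; linarith))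
  let χ : ContDiffBump (0 : E n) := ⟨|R| + 1, |R| + 2, by positivity, by linarith⟩
  have hχ : ContDiff ℝ 1 (χ : E n → ℝ) := χ.contDiff
  have h1 : ∀ x, χ x * pd i g x = pd i g x := by
    intro x
    by_cases hx : x ∈ tsupport g
    · rw [χ.one_of_mem_closedBall (hR' hx), one_mul]
    · have : pd i g x = 0 := by
        by_contra h
        exact hx (tsupport_pd_subset i g (subset_tsupport _ h))
      rw [this, mul_zero]
  have h2 : ∀ x, pd i (χ : E n → ℝ) x * g x = 0 := by
    intro x
    by_cases hx : x ∈ tsupport g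
    · have hx' := hR hx
      have : (χ : E n → ℝ) =ᶠ[𝓝 x] fun _ => (1:ℝ) := by
        have hmem : Metric.ball (0 : E n) (|R| + 1) ∈ 𝓝 x := by
          refine Metric.isOpen_ball.mem_nhds ?_
          rw [Metric.mem_closedBall] at hx'
          rw [Metric.mem_ball]
          have := le_abs_self R
          linarith
        filter_upwards [hmem] with y hy
        exact χ.one_of_mem_closedBall (Metric.ball_subset_closedBall hy)
      rw [pd_congr_nhds i this, pd_const, zero_mul]
    · rw [image_eq_zero_of_notMem_tsupport hx, mul_zero]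
  have hibp := integral_mul_fderiv_eq_neg_fderiv_mul_of_integrable (μ := (volume : Measure (E n)))
    (f := (χ : E n → ℝ)) (g := g) (v := EuclideanSpace.single i (1:ℝ)) ?_ ?_ ?_
    (fun x _ => hχ.differentiable (by norm_num) x) (fun x _ => hg.differentiable (by norm_num) x)
  · have e1 : (fun x => χ x * (fderiv ℝ g x) (EuclideanSpace.single i (1:ℝ))) = pd i g :=
      funext h1
    have e2 : (fun x => (fderiv ℝ (χ : E n → ℝ) x) (EuclideanSpace.single i (1:ℝ)) * g x) =
        fun _ => (0:ℝ) := funext h2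
    rw [e1, e2] at hibp
    simpa using hibp
  · have : (fun x => (fderiv ℝ (χ : E n → ℝ) x) (EuclideanSpace.single i (1:ℝ)) * g x) =
        fun _ => (0:ℝ) := funext h2
    rw [this]; exact integrable_zero _ _ _
  · have e1 : (fun x => χ x * (fderiv ℝ g x) (EuclideanSpace.single i (1:ℝ))) = pd i g :=
      funext h1
    rw [e1]; exact hint'
  · exact (χ.continuous.mul hg.continuous).integrable_of_hasCompactSupport
      (hc.mul_left)

/-- Integration by parts, the product having compact support. -/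
theorem integral_mul_pd {g h : E n → ℝ} (i : Fin n) (hg : ContDiff ℝ 1 g) (hh : ContDiff ℝ 1 h)
    (hc : HasCompactSupport g) : ∫ x, g x * pd i h x = - ∫ x, pd i g x * h x := by
  have h0 := integral_pd_eq_zero i (hg.mul hh) (hc.mul_right)
  have e : ∀ x, pd i (fun x => g x * h x) x = pd i g x * h x + g x * pd i h x := fun x =>
    pd_mul i (hg.differentiable (by norm_num) x) (hh.differentiable (by norm_num) x)
  simp_rw [e] at h0
  rw [integral_add] at h0
  · linarith
  · exact ((continuous_pd i hg).mul hh.continuous).integrable_of_hasCompactSupport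
      ((HasCompactSupport.pd' i hc).mul_right)
  · exact (hg.continuous.mul (continuous_pd i hh)).integrable_of_hasCompactSupport hc.mul_right

theorem integral_mul_pd' {g h : E n → ℝ} (i : Fin n) (hg : ContDiff ℝ 1 g) (hh : ContDiff ℝ 1 h)
    (hc : HasCompactSupport h) : ∫ x, g x * pd i h x = - ∫ x, pd i g x * h x := by
  have := integral_mul_pd i hh hg hc
  have e1 : ∫ x, g x * pd i h x = ∫ x, pd i h x * g x := by congr 1; ext x; ring
  have e2 : ∫ x, pd i g x * h x = ∫ x, h x * pd i g x := by congr 1; ext x; ring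
  rw [e1, e2, this]; ring

/-! ### test functions -/

theorem Test.mono {Ω Ω' : Set (E n)} {φ : E n → ℝ} (h : Test Ω φ) (hsub : Ω ⊆ Ω') : Test Ω' φ :=
  ⟨h.smooth, h.compact, h.sub.trans hsub⟩

theorem Test.mul_left {Ω : Set (E n)} {φ g : E n → ℝ} (h : Test Ω φ) (hg : ContDiff ℝ ∞ g) :
    Test Ω (fun x => g x * φ x) :=
  ⟨hg.mul h.smooth, h.compact.mul_left,
    (tsupport_mul_subset_right (f := g) (g := φ)).trans h.sub⟩

theorem Test.mul_right {Ω : Set (E n)} {φ g : E n → ℝ} (h : Test Ω φ) (hg : ContDiff ℝ ∞ g) :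
    Test Ω (fun x => φ x * g x) :=
  ⟨h.smooth.mul hg, h.compact.mul_right,
    (tsupport_mul_subset_left (f := φ) (g := g)).trans h.sub⟩

theorem Test.pd {Ω : Set (E n)} {φ : E n → ℝ} (h : Test Ω φ) (i : Fin n) :
    Test Ω (Stab.pd i φ) :=
  ⟨contDiff_pd_infty i h.smooth, HasCompactSupport.pd' i h.compact,
    (tsupport_pd_subset i φ).trans h.sub⟩

theorem tsupport_add_subset' (φ ψ : E n → ℝ) :
    tsupport (fun x => φ x + ψ x) ⊆ tsupport φ ∪ tsupport ψ := by
  refine closure_minimal ?_ ((isClosed_tsupport φ).union (isClosed_tsupport ψ))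
  intro x hx
  by_contra hcon
  rw [mem_union, not_or] at hcon
  apply hx
  show φ x + ψ x = 0
  rw [image_eq_zero_of_notMem_tsupport hcon.1, image_eq_zero_of_notMem_tsupport hcon.2, add_zero]

theorem Test.add {Ω : Set (E n)} {φ ψ : E n → ℝ} (h : Test Ω φ) (h' : Test Ω ψ) :
    Test Ω (fun x => φ x + ψ x) :=
  ⟨h.smooth.add h'.smooth, h.compact.add h'.compact,
    (tsupport_add_subset' φ ψ).trans (union_subset h.sub h'.sub)⟩

theorem Test.const_mul {Ω : Set (E n)} {φ : E n → ℝ} (h : Test Ω φ) (c : ℝ) :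
    Test Ω (fun x => c * φ x) := h.mul_left contDiff_const

theorem Test.neg {Ω : Set (E n)} {φ : E n → ℝ} (h : Test Ω φ) : Test Ω (fun x => - φ x) := by
  have := h.const_mul (-1)
  simpa using this

theorem Test.sub' {Ω : Set (E n)} {φ ψ : E n → ℝ} (h : Test Ω φ) (h' : Test Ω ψ) :
    Test Ω (fun x => φ x - ψ x) := by
  have := h.add h'.neg
  simpa [sub_eq_add_neg] using this

theorem Test.c1 {Ω : Set (E n)} {φ : E n → ℝ} (h : Test Ω φ) : ContDiff ℝ 1 φ :=
  h.smooth.of_le (by exact_mod_cast le_top)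

theorem Test.continuous {Ω : Set (E n)} {φ : E n → ℝ} (h : Test Ω φ) : Continuous φ :=
  h.smooth.continuous

theorem Test.integrable {Ω : Set (E n)} {φ : E n → ℝ} (h : Test Ω φ) : Integrable φ volume :=
  h.continuous.integrable_of_hasCompactSupport h.compact

theorem Test.integrable_mul {Ω : Set (E n)} {φ g : E n → ℝ} (h : Test Ω φ) (hg : Continuous g) :
    Integrable (fun x => g x * φ x) volume :=
  (hg.mul h.continuous).integrable_of_hasCompactSupport h.compact.mul_left

theorem Test.zero_of_notMem {Ω : Set (E n)} {φ : E n → ℝ} (h : Test Ω φ) {x : E n} (hx : x ∉ Ω) :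
    φ x = 0 := image_eq_zero_of_notMem_tsupport fun h' => hx (h.sub h')

end Pool.Agent.H94.Stab
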