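import Pool.Agent.H94.Stab.Calc

/-!
# Calculus API for MP_de3e90_an, part 2: gradient, normal, `W`, the form `Q`
-/

set_option autoImplicit false

open MeasureTheory Set Filter Topology
open scoped ContDiff

namespace Pool.Agent.H94.Stab

variable {n : ℕ}

theorem two_le_infty : (2 : WithTop ℕ∞) ≤ ∞ := by
  have : ((2 : ℕ∞) : WithTop ℕ∞) ≤ ∞ := by exact_mod_cast le_top
  exact this

/-! ### pointwise facts on `gsq, gr, nu` -/

theorem gsq_nonneg (u : E n → ℝ) (x : E n) : 0 ≤ gsq u x := Finset.sum_nonneg fun _ _ => sq_nonneg _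

theorem gr_nonneg (u : E n → ℝ) (x : E n) : 0 ≤ gr u x := Real.sqrt_nonneg _

theorem gr_sq (u : E n → ℝ) (x : E n) : gr u x ^ 2 = gsq u x := Real.sq_sqrt (gsq_nonneg u x)

theorem gr_mul_gr (u : E n → ℝ) (x : E n) : gr u x * gr u x = gsq u x := by
  rw [← sq, gr_sq]

theorem pd_sq_le_gsq (u : E n → ℝ) (i : Fin n) (x : E n) : (pd i u x) ^ 2 ≤ gsq u x :=
  Finset.single_le_sum (f := fun i => (pd i u x) ^ 2) (fun _ _ => sq_nonneg _) (Finset.mem_univ i)

theorem abs_pd_le_gr (u : E n → ℝ) (i : Fin n) (x : E n) : |pd i u x| ≤ gr u x := by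
  rw [← Real.sqrt_sq_eq_abs]
  exact Real.sqrt_le_sqrt (pd_sq_le_gsq u i x)

theorem gsq_eq_zero_iff (u : E n → ℝ) (x : E n) : gsq u x = 0 ↔ ∀ i, pd i u x = 0 := by
  unfold gsq
  rw [Finset.sum_eq_zero_iff_of_nonneg (fun _ _ => sq_nonneg _)]
  simp

theorem gr_eq_zero_iff (u : E n → ℝ) (x : E n) : gr u x = 0 ↔ ∀ i, pd i u x = 0 := by
  rw [← gsq_eq_zero_iff, ← gr_sq]
  simp

theorem gr_mul_nu (u : E n → ℝ) (i : Fin n) (x : E n) : gr u x * nu u i x = pd i u x := by
  unfold nu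
  by_cases h : gr u x = 0
  · rw [h, (gr_eq_zero_iff u x).1 h i]; simp
  · field_simp

theorem nu_eq_zero (u : E n → ℝ) {x : E n} (h : gr u x = 0) (i : Fin n) : nu u i x = 0 := by
  unfold nu; rw [h, div_zero]

theorem sum_nu_sq (u : E n → ℝ) {x : E n} (h : gr u x ≠ 0) : ∑ i, nu u i x ^ 2 = 1 := by
  unfold nu
  simp_rw [div_pow]
  rw [← Finset.sum_div, gr_sq]
  have : gsq u x ≠ 0 := by rw [← gr_sq]; exact pow_ne_zero 2 h
  exact div_self this

theorem sum_nu_sq_le (u : E n → ℝ) (x : E n) : ∑ i, nu u i x ^ 2 ≤ 1 := by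
  by_cases h : gr u x = 0
  · simp [nu_eq_zero u h]
  · rw [sum_nu_sq u h]

theorem abs_nu_le (u : E n → ℝ) (i : Fin n) (x : E n) : |nu u i x| ≤ 1 := by
  have h1 : nu u i x ^ 2 ≤ ∑ i, nu u i x ^ 2 :=
    Finset.single_le_sum (f := fun i => nu u i x ^ 2) (fun _ _ => sq_nonneg _) (Finset.mem_univ i)
  have h2 := sum_nu_sq_le u x
  exact abs_le_one_iff_mul_self_le_one.2 (by nlinarith)

theorem gr_mul_xnu (u : E n → ℝ) (x : E n) : gr u x * xnu u x = cc u x := by
  unfold xnu cc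
  rw [Finset.mul_sum]
  refine Finset.sum_congr rfl fun i _ => ?_
  rw [← gr_mul_nu u i x]; ring

/-- `∑ ν_i ∂_i u = |∇u|`. -/
theorem sum_nu_mul_pd (u : E n → ℝ) (x : E n) : ∑ i, nu u i x * pd i u x = gr u x := by
  by_cases h : gr u x = 0
  · simp [nu_eq_zero u h, h]
  · have : ∀ i, nu u i x * pd i u x = gr u x * nu u i x ^ 2 := by
      intro i; rw [← gr_mul_nu u i x]; ring
    simp_rw [this]
    rw [← Finset.mul_sum, sum_nu_sq u h, mul_one]

theorem Wt_symm {u : E n → ℝ} (hu : ContDiff ℝ ∞ u) (f : ℝ → ℝ) (i j : Fin n) (x : E n) :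
    Wt f u i j x = Wt f u j i x := by
  unfold Wt
  rw [pd_comm (hu.of_le two_le_infty) i j x]
  ring

theorem Wsq_nonneg (f : ℝ → ℝ) (u : E n → ℝ) (x : E n) : 0 ≤ Wsq f u x :=
  Finset.sum_nonneg fun _ _ => Finset.sum_nonneg fun _ _ => sq_nonneg _

theorem Wt_sq_le (f : ℝ → ℝ) (u : E n → ℝ) (i j : Fin n) (x : E n) :
    Wt f u i j x ^ 2 ≤ Wsq f u x := by
  unfold Wsq
  refine (Finset.single_le_sum (f := fun j => Wt f u i j x ^ 2)
    (fun _ _ => sq_nonneg _) (Finset.mem_univ j)).trans ?_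
  exact Finset.single_le_sum (f := fun i => ∑ j, Wt f u i j x ^ 2)
    (fun _ _ => Finset.sum_nonneg fun _ _ => sq_nonneg _) (Finset.mem_univ i)

theorem abs_Wt_le (f : ℝ → ℝ) (u : E n → ℝ) (i j : Fin n) (x : E n) :
    |Wt f u i j x| ≤ Real.sqrt (Wsq f u x) := by
  rw [← Real.sqrt_sq_eq_abs]
  exact Real.sqrt_le_sqrt (Wt_sq_le f u i j x)

/-- trace of `W` against `ν`: `(∑_k W_kk) ν_l = 0` in `Ω`. -/
theorem trace_Wt_mul_nu {Ω : Set (E n)} {f F : ℝ → ℝ} {u : E n → ℝ} (h : Stable Ω f F u)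
    {x : E n} (hx : x ∈ Ω) (l : Fin n) : (∑ k, Wt f u k k x) * nu u l x = 0 := by
  by_cases h0 : gr u x = 0
  · rw [nu_eq_zero u h0, mul_zero]
  · have : ∑ k, Wt f u k k x = 0 := by
      unfold Wt
      rw [Finset.sum_add_distrib, h.eqn x hx]
      have e : ∀ k, f (u x) * nu u k x * nu u k x = f (u x) * nu u k x ^ 2 := fun k => by ring
      simp_rw [e]
      rw [← Finset.mul_sum, sum_nu_sq u h0]
      ring
    rw [this, zero_mul]

/-! ### regularity and measurability -/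

theorem Stable.continuous {Ω : Set (E n)} {f F : ℝ → ℝ} {u : E n → ℝ} (h : Stable Ω f F u) :
    Continuous u := h.smooth.continuous

theorem Stable.pd_smooth {Ω : Set (E n)} {f F : ℝ → ℝ} {u : E n → ℝ} (h : Stable Ω f F u)
    (i : Fin n) : ContDiff ℝ ∞ (Stab.pd i u) := contDiff_pd_infty i h.smooth

theorem contDiff_gsq {u : E n → ℝ} (hu : ContDiff ℝ ∞ u) : ContDiff ℝ ∞ (gsq u) := by
  unfold gsq
  exact ContDiff.sum fun i _ => (contDiff_pd_infty i hu).pow 2

theorem continuous_gsq {u : E n → ℝ} (hu : ContDiff ℝ 1 u) : Continuous (gsq u) := by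
  unfold gsq
  exact continuous_finsetSum _ fun i _ => (continuous_pd i hu).pow 2

theorem continuous_gr {u : E n → ℝ} (hu : ContDiff ℝ 1 u) : Continuous (gr u) :=
  Real.continuous_sqrt.comp (continuous_gsq hu)

theorem measurable_nu {u : E n → ℝ} (hu : ContDiff ℝ 1 u) (i : Fin n) : Measurable (nu u i) :=
  (continuous_pd i hu).measurable.div (continuous_gr hu).measurable

theorem coord_contDiff (i : Fin n) {m : WithTop ℕ∞} : ContDiff ℝ m (fun x : E n => x i) :=
  (EuclideanSpace.proj (𝕜 := ℝ) i).contDiff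

theorem contDiff_cc {u : E n → ℝ} (hu : ContDiff ℝ ∞ u) : ContDiff ℝ ∞ (cc u) := by
  unfold cc
  exact ContDiff.sum fun i _ => (coord_contDiff i).mul (contDiff_pd_infty i hu)

theorem Stable.deriv_f_cont {Ω : Set (E n)} {f F : ℝ → ℝ} {u : E n → ℝ} (h : Stable Ω f F u) :
    Continuous (deriv f) := h.f_C1.continuous_deriv (by norm_num)

theorem Stable.F_C2 {Ω : Set (E n)} {f F : ℝ → ℝ} {u : E n → ℝ} (h : Stable Ω f F u) :
    ContDiff ℝ 2 F := by
  have hd : Differentiable ℝ F := fun s => (h.F_deriv s).differentiableAt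
  have he : deriv F = f := funext fun s => (h.F_deriv s).deriv
  rw [show (2 : WithTop ℕ∞) = 1 + 1 by norm_num, contDiff_succ_iff_deriv]
  exact ⟨hd, by simp, by rw [he]; exact h.f_C1⟩

theorem measurable_Wt {Ω : Set (E n)} {f F : ℝ → ℝ} {u : E n → ℝ} (h : Stable Ω f F u)
    (i j : Fin n) : Measurable (Wt f u i j) := by
  unfold Wt
  have h1 : ContDiff ℝ 1 u := h.smooth.of_le (by exact_mod_cast le_top)
  refine (contDiff_pd_infty i (contDiff_pd_infty j h.smooth)).continuous.measurable.add ?_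
  exact (((h.f_C1.continuous.comp h.continuous).measurable.mul (measurable_nu h1 i)).mul
    (measurable_nu h1 j))

theorem measurable_Wsq {Ω : Set (E n)} {f F : ℝ → ℝ} {u : E n → ℝ} (h : Stable Ω f F u) :
    Measurable (Wsq f u) := by
  unfold Wsq
  exact Finset.measurable_sum _ fun i _ => Finset.measurable_sum _ fun j _ =>
    (measurable_Wt h i j).pow_const 2

/-- A continuous majorant of `|W|²`. -/
theorem Wsq_le_continuous {Ω : Set (E n)} {f F : ℝ → ℝ} {u : E n → ℝ} (h : Stable Ω f F u) :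
    ∃ B : E n → ℝ, Continuous B ∧ ∀ x, Wsq f u x ≤ B x := by
  refine ⟨fun x => ∑ i, ∑ j, (|pd i (pd j u) x| + |f (u x)|) ^ 2, ?_, ?_⟩
  · refine continuous_finsetSum _ fun i _ => continuous_finsetSum _ fun j _ => ?_
    exact ((contDiff_pd_infty i (contDiff_pd_infty j h.smooth)).continuous.abs.add
      (h.f_C1.continuous.comp h.continuous).abs).pow 2
  · intro x
    unfold Wsq
    refine Finset.sum_le_sum fun i _ => Finset.sum_le_sum fun j _ => ?_
    rw [← sq_abs (Wt f u i j x)]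
    refine pow_le_pow_left₀ (abs_nonneg _) ?_ 2
    unfold Wt
    refine (abs_add_le _ _).trans ?_
    have h1 := abs_nu_le u i x
    have h2 := abs_nu_le u j x
    have h3 : |f (u x) * nu u i x * nu u j x| ≤ |f (u x)| := by
      rw [abs_mul, abs_mul]
      have := abs_nonneg (f (u x))
      have h4 : |f (u x)| * |nu u i x| ≤ |f (u x)| := mul_le_of_le_one_right this h1
      exact (mul_le_of_le_one_right (by positivity) h2).trans h4
    linarith

theorem integrableOn_Wsq {Ω : Set (E n)} {f F : ℝ → ℝ} {u : E n → ℝ} (h : Stable Ω f F u)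
    {K : Set (E n)} (hK : IsCompact K) : IntegrableOn (Wsq f u) K volume := by
  obtain ⟨B, hB, hle⟩ := Wsq_le_continuous h
  refine Integrable.mono' (hB.continuousOn.integrableOn_compact hK)
    (measurable_Wsq h).aestronglyMeasurable (Filter.Eventually.of_forall fun x => ?_)
  rw [Real.norm_eq_abs, abs_of_nonneg (Wsq_nonneg f u x)]
  exact hle x

theorem integrable_Wsq_mul {Ω : Set (E n)} {f F : ℝ → ℝ} {u : E n → ℝ} (h : Stable Ω f F u)
    {φ : E n → ℝ} (hφ : Continuous φ) (hc : HasCompactSupport φ) :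
    Integrable (fun x => Wsq f u x * φ x) volume := by
  obtain ⟨B, hB, hle⟩ := Wsq_le_continuous h
  refine Integrable.mono' ((hB.mul hφ.abs).integrable_of_hasCompactSupport
    (hc.norm.mul_left)) ((measurable_Wsq h).mul hφ.measurable).aestronglyMeasurable
    (Filter.Eventually.of_forall fun x => ?_)
  rw [Real.norm_eq_abs, abs_mul, abs_of_nonneg (Wsq_nonneg f u x)]
  exact mul_le_mul_of_nonneg_right (hle x) (abs_nonneg _)

/-! ### derivative of the equation -/

/-- `Δ ∂_i u = - f'(u) ∂_i u` in `Ω`. -/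
theorem Stable.eqn_pd {Ω : Set (E n)} {f F : ℝ → ℝ} {u : E n → ℝ} (h : Stable Ω f F u)
    {x : E n} (hx : x ∈ Ω) (i : Fin n) :
    ∑ j, Stab.pd j (Stab.pd j (Stab.pd i u)) x = - (deriv f (u x) * Stab.pd i u x) := by
  have h1 : (fun y => ∑ j, Stab.pd j (Stab.pd j u) y) =ᶠ[𝓝 x] fun y => - f (u y) := by
    filter_upwards [h.isOpen.mem_nhds hx] with y hy using h.eqn y hy
  have h2 := pd_congr_nhds i h1
  have hsm : ∀ j, ContDiff ℝ ∞ (Stab.pd j (Stab.pd j u)) := fun j =>
    contDiff_pd_infty j (contDiff_pd_infty j h.smooth)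
  rw [pd_sum i (fun j _ => (hsm j).differentiable (by simp) x), pd_neg,
    pd_comp i (h.f_C1.differentiable (by norm_num) _) (h.smooth.differentiable (by simp) x)] at h2
  rw [← h2]
  refine Finset.sum_congr rfl fun j _ => ?_
  have hc : Stab.pd j (Stab.pd i u) = Stab.pd i (Stab.pd j u) :=
    funext fun y => pd_comm (h.smooth.of_le two_le_infty) j i y
  rw [hc]
  exact pd_comm ((contDiff_pd_infty j h.smooth).of_le two_le_infty) j i x

end Pool.Agent.H94.Stab
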