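import Pool.Agent.H94.Stab.Calc2

/-!
# Calculus API for MP_de3e90_an, part 3: the form `Q`, radial functions
-/

set_option autoImplicit false

open MeasureTheory Set Filter Topology
open scoped ContDiff

namespace Pool.Agent.H94.Stab

variable {n : ℕ} {Ω : Set (E n)} {f F : ℝ → ℝ} {u : E n → ℝ}

theorem one_le_infty : (1 : WithTop ℕ∞) ≤ ∞ := by
  have : ((1 : ℕ∞) : WithTop ℕ∞) ≤ ∞ := by exact_mod_cast le_top
  exact this

/-! ### the bilinear form -/

/-- The bilinear form of `Q`. -/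
noncomputable def Bf (f : ℝ → ℝ) (u ξ b : E n → ℝ) : ℝ :=
  ∫ x, ((∑ i, pd i ξ x * pd i b x) - deriv f (u x) * ξ x * b x)

theorem Stable.cont_df (h : Stable Ω f F u) : Continuous fun x => deriv f (u x) :=
  h.deriv_f_cont.comp h.continuous

theorem integrable_Bf (h : Stable Ω f F u) {ξ b : E n → ℝ} (hξ : Test Ω ξ) (hb : Test Ω b) :
    Integrable (fun x => (∑ i, pd i ξ x * pd i b x) - deriv f (u x) * ξ x * b x) volume := by
  refine Integrable.sub ?_ ?_
  · refine integrable_finsetSum _ fun i _ => ?_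
    exact (hb.pd i).integrable_mul (hξ.pd i).continuous
  · exact hb.integrable_mul (h.cont_df.mul hξ.continuous)

theorem Qf_eq_Bf (ξ : E n → ℝ) : Qf f u ξ = Bf f u ξ ξ := by
  unfold Qf Bf gsq
  congr 1; ext x
  have : ∀ i, pd i ξ x ^ 2 = pd i ξ x * pd i ξ x := fun i => sq _
  simp_rw [this]; ring

theorem Qf_add (h : Stable Ω f F u) {ξ b : E n → ℝ} (hξ : Test Ω ξ) (hb : Test Ω b) (t : ℝ) :
    Qf f u (fun x => ξ x + t * b x) = Qf f u ξ + 2 * t * Bf f u ξ b + t ^ 2 * Qf f u b := by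
  simp_rw [Qf_eq_Bf]
  unfold Bf
  have e : ∀ x, (∑ i, pd i (fun x => ξ x + t * b x) x * pd i (fun x => ξ x + t * b x) x)
      - deriv f (u x) * (ξ x + t * b x) * (ξ x + t * b x) =
      ((∑ i, pd i ξ x * pd i ξ x) - deriv f (u x) * ξ x * ξ x) +
      ((2 * t) * ((∑ i, pd i ξ x * pd i b x) - deriv f (u x) * ξ x * b x) +
      t ^ 2 * ((∑ i, pd i b x * pd i b x) - deriv f (u x) * b x * b x)) := by
    intro x
    have hd : ∀ i, pd i (fun x => ξ x + t * b x) x = pd i ξ x + t * pd i b x := fun i => by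
      rw [pd_add i (hξ.smooth.differentiable (by simp) x)
        ((hb.smooth.differentiable (by simp) x).const_mul t),
        pd_const_mul i t (hb.smooth.differentiable (by simp) x)]
    simp_rw [hd]
    have e2 : ∀ i, (pd i ξ x + t * pd i b x) * (pd i ξ x + t * pd i b x) =
        pd i ξ x * pd i ξ x + ((2 * t) * (pd i ξ x * pd i b x) + t ^ 2 * (pd i b x * pd i b x)) :=
      fun i => by ring
    simp_rw [e2, Finset.sum_add_distrib, ← Finset.mul_sum]
    ring
  simp_rw [e]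
  rw [integral_add (integrable_Bf h hξ hξ), integral_add, integral_const_mul, integral_const_mul]
  · ring
  · exact (integrable_Bf h hξ hb).const_mul _
  · exact (integrable_Bf h hb hb).const_mul _
  · exact ((integrable_Bf h hξ hb).const_mul _).add ((integrable_Bf h hb hb).const_mul _)

/-- Cauchy–Schwarz for the nonnegative form `Q`. -/
theorem Bf_sq_le (h : Stable Ω f F u) {ξ b : E n → ℝ} (hξ : Test Ω ξ) (hb : Test Ω b) :
    Bf f u ξ b ^ 2 ≤ Qf f u ξ * Qf f u b := by
  have key : ∀ t : ℝ, 0 ≤ Qf f u b * (t * t) + (2 * Bf f u ξ b) * t + Qf f u ξ := by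
    intro t
    have := h.stab _ (hξ.add (hb.const_mul t))
    rw [Qf_add h hξ hb t] at this
    linarith
  have hd := discrim_le_zero key
  unfold discrim at hd
  nlinarith

/-- `B(ξ,b) = ∫ b (-Δξ - f'(u) ξ)`. -/
theorem Bf_eq (h : Stable Ω f F u) {ξ b : E n → ℝ} (hξ : Test Ω ξ) (hb : Test Ω b) :
    Bf f u ξ b = ∫ x, b x * (-(∑ i, pd i (pd i ξ) x) - deriv f (u x) * ξ x) := by
  unfold Bf
  rw [integral_sub]
  rotate_left
  · exact integrable_finsetSum _ fun i _ => (hb.pd i).integrable_mul (hξ.pd i).continuous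
  · exact hb.integrable_mul (h.cont_df.mul hξ.continuous)
  rw [integral_finsetSum _ fun i _ => (hb.pd i).integrable_mul (hξ.pd i).continuous]
  have e1 : ∀ i, ∫ x, pd i ξ x * pd i b x = - ∫ x, pd i (pd i ξ) x * b x := fun i =>
    integral_mul_pd i (hξ.pd i).c1 hb.c1 (hξ.pd i).compact
  simp_rw [e1]
  have e2 : ∀ x, b x * (-(∑ i, pd i (pd i ξ) x) - deriv f (u x) * ξ x) =
      -(∑ i, pd i (pd i ξ) x * b x) - deriv f (u x) * ξ x * b x := by
    intro x; rw [← Finset.sum_mul]; ring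
  simp_rw [e2]
  rw [integral_sub, integral_neg, integral_finsetSum, Finset.sum_neg_distrib]
  · intro i _; exact hb.integrable_mul ((hξ.pd i).pd i).continuous
  · exact (integrable_finsetSum _ fun i _ => hb.integrable_mul ((hξ.pd i).pd i).continuous).neg
  · exact hb.integrable_mul (h.cont_df.mul hξ.continuous)

/-- `Q(vη) = ∫ v²|∇η|² + ∫ η² v (-Δv - f'(u)v)`. -/
theorem Qf_mul (h : Stable Ω f F u) {v η : E n → ℝ} (hv : ContDiff ℝ ∞ v) (hη : Test Ω η) :
    Qf f u (fun x => v x * η x) =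
      (∫ x, v x ^ 2 * gsq η x) +
      ∫ x, η x ^ 2 * (v x * (-(∑ i, pd i (pd i v) x) - deriv f (u x) * v x)) := by
  have hdv : Differentiable ℝ v := hv.differentiable (by simp)
  have hdη : Differentiable ℝ η := hη.smooth.differentiable (by simp)
  have hη2 : Test Ω (fun x => η x ^ 2 * v x) := by
    have : (fun x => η x ^ 2 * v x) = fun x => (η x * v x) * η x := by ext x; ring
    rw [this]; exact hη.mul_left (hη.smooth.mul hv)
  have e : ∀ x, gsq (fun x => v x * η x) x - deriv f (u x) * (v x * η x) ^ 2 =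
      v x ^ 2 * gsq η x + ((∑ i, pd i v x * pd i (fun x => η x ^ 2 * v x) x)
        - deriv f (u x) * v x ^ 2 * η x ^ 2) := by
    intro x
    unfold gsq
    have h1 : ∀ i, pd i (fun x => v x * η x) x = pd i v x * η x + v x * pd i η x := fun i =>
      pd_mul i (hdv x) (hdη x)
    have h2 : ∀ i, pd i (fun x => η x ^ 2 * v x) x = 2 * η x * pd i η x * v x + η x ^ 2 * pd i v x :=
      fun i => by
        have hsq : DifferentiableAt ℝ (fun y => η y ^ 2) x := (hdη x).pow 2
        rw [pd_mul i hsq (hdv x), pd_sq i (hdη x)]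
    simp_rw [h1, h2]
    rw [Finset.mul_sum]
    rw [add_sub_assoc', ← Finset.sum_add_distrib]
    have : ∀ i, (pd i v x * η x + v x * pd i η x) ^ 2 = v x ^ 2 * pd i η x ^ 2 +
        pd i v x * (2 * η x * pd i η x * v x + η x ^ 2 * pd i v x) := fun i => by ring
    simp_rw [this]
    ring
  unfold Qf
  simp_rw [e]
  have i1 : Integrable (fun x => v x ^ 2 * gsq η x) volume := by
    unfold gsq
    simp_rw [Finset.mul_sum]
    refine integrable_finsetSum _ fun i _ => ?_
    have : (fun x => v x ^ 2 * pd i η x ^ 2) = fun x => (v x ^ 2 * pd i η x) * pd i η x := by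
      ext x; ring
    rw [this]
    exact (hη.pd i).integrable_mul ((hv.continuous.pow 2).mul (hη.pd i).continuous)
  have i2 : Integrable (fun x => ∑ i, pd i v x * pd i (fun x => η x ^ 2 * v x) x) volume :=
    integrable_finsetSum _ fun i _ =>
      (hη2.pd i).integrable_mul (contDiff_pd_infty i hv).continuous
  have i3 : Integrable (fun x => deriv f (u x) * v x ^ 2 * η x ^ 2) volume := by
    have : (fun x => deriv f (u x) * v x ^ 2 * η x ^ 2) =
        fun x => (deriv f (u x) * v x ^ 2 * η x) * η x := by ext x; ring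
    rw [this]
    exact hη.integrable_mul ((h.cont_df.mul (hv.continuous.pow 2)).mul hη.continuous)
  have i23 : Integrable (fun x => (∑ i, pd i v x * pd i (fun x => η x ^ 2 * v x) x)
        - deriv f (u x) * v x ^ 2 * η x ^ 2) volume := i2.sub i3
  rw [integral_add i1 i23, integral_sub i2 i3]
  congr 1
  rw [integral_finsetSum _ fun i _ =>
      (hη2.pd i).integrable_mul (contDiff_pd_infty i hv).continuous]
  have e1 : ∀ i, ∫ x, pd i v x * pd i (fun x => η x ^ 2 * v x) x =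
      - ∫ x, pd i (pd i v) x * (η x ^ 2 * v x) := fun i =>
    integral_mul_pd' i ((contDiff_pd_infty i hv).of_le one_le_infty) hη2.c1 hη2.compact
  simp_rw [e1]
  rw [Finset.sum_neg_distrib, ← integral_finsetSum _ fun i _ =>
    hη2.integrable_mul (contDiff_pd_infty i (contDiff_pd_infty i hv)).continuous, ← integral_neg,
    ← integral_sub]
  · congr 1; ext x
    rw [← Finset.sum_mul]; ring
  · exact (integrable_finsetSum _ fun i _ =>
      hη2.integrable_mul (contDiff_pd_infty i (contDiff_pd_infty i hv)).continuous).neg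
  · exact i3

/-! ### radial functions -/

/-- `|x|^p g(log|x|)`. -/
noncomputable def rad (p : ℝ) (g : ℝ → ℝ) (x : E n) : ℝ := ‖x‖ ^ p * g (Real.log ‖x‖)

theorem Bump1.exists_bound {g : ℝ → ℝ} (hg : Bump1 g) : ∃ R : ℝ, 0 < R ∧ ∀ t, R ≤ |t| → g t = 0 := by
  obtain ⟨R, hR⟩ := hg.2.isCompact.isBounded.subset_closedBall (0:ℝ)
  refine ⟨|R| + 1, by positivity, fun t ht => ?_⟩
  apply image_eq_zero_of_notMem_tsupport
  intro hmem
  have := hR hmem
  rw [Metric.mem_closedBall, dist_zero_right, Real.norm_eq_abs] at this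
  have := le_abs_self R
  linarith

theorem rad_eq_zero_near {p : ℝ} (hp : p ≠ 0) {g : ℝ → ℝ} (hg : Bump1 g) :
    ∀ᶠ x : E n in 𝓝 0, rad p g x = 0 := by
  obtain ⟨R, hR0, hR⟩ := hg.exists_bound
  have hmem : Metric.ball (0 : E n) (Real.exp (-R)) ∈ 𝓝 (0 : E n) :=
    Metric.ball_mem_nhds _ (Real.exp_pos _)
  filter_upwards [hmem] with x hx
  unfold rad
  by_cases h0 : x = 0
  · rw [h0, norm_zero, Real.zero_rpow hp, zero_mul]
  · have hx' : ‖x‖ < Real.exp (-R) := by simpa using hx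
    have hpos : 0 < ‖x‖ := norm_pos_iff.2 h0
    have : Real.log ‖x‖ < -R := (Real.log_lt_iff_lt_exp hpos).2 hx'
    rw [hR _ (by rw [abs_of_neg (by linarith)]; linarith), mul_zero]

theorem contDiff_rad {p : ℝ} (hp : p ≠ 0) {g : ℝ → ℝ} (hg : Bump1 g) :
    ContDiff ℝ ∞ (rad p g : E n → ℝ) := by
  rw [contDiff_iff_contDiffAt]
  intro x
  by_cases h0 : x = 0
  · subst h0
    have : (rad p g : E n → ℝ) =ᶠ[𝓝 0] fun _ => (0:ℝ) := rad_eq_zero_near hp hg
    exact (contDiffAt_const (c := (0:ℝ))).congr_of_eventuallyEq this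
  · unfold rad
    have h1 : ContDiffAt ℝ ∞ (fun x : E n => ‖x‖) x := contDiffAt_norm ℝ h0
    have hne : ‖x‖ ≠ 0 := norm_ne_zero_iff.2 h0
    exact (h1.rpow_const_of_ne hne).mul (hg.1.contDiffAt.comp x (h1.log hne))

theorem rad_ne_zero {p : ℝ} (hp : p ≠ 0) {g : ℝ → ℝ} {x : E n} (h : rad p g x ≠ 0) :
    x ≠ 0 ∧ Real.log ‖x‖ ∈ tsupport g := by
  constructor
  · rintro rfl
    apply h
    unfold rad
    rw [norm_zero, Real.zero_rpow hp, zero_mul]
  · apply subset_tsupport
    intro h'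
    exact h (by unfold rad; rw [h', mul_zero])

theorem tsupport_rad_subset {p : ℝ} (hp : p ≠ 0) {g : ℝ → ℝ} (hg : Bump1 g) :
    tsupport (rad p g : E n → ℝ) ⊆ {x | x ≠ 0 ∧ Real.log ‖x‖ ∈ tsupport g} := by
  intro x hx
  have h0 : x ≠ 0 := by
    rintro rfl
    have hz := rad_eq_zero_near (n := n) hp hg
    rw [tsupport, mem_closure_iff_nhds] at hx
    obtain ⟨y, hy1, hy2⟩ := hx _ hz
    exact hy2 hy1
  refine ⟨h0, ?_⟩
  by_contra hcon
  have hcont : ContinuousAt (fun x : E n => Real.log ‖x‖) x :=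
    (continuousAt_id.norm).log (norm_ne_zero_iff.2 h0)
  have hmem := hcont.preimage_mem_nhds ((isClosed_tsupport g).isOpen_compl.mem_nhds hcon)
  rw [tsupport, mem_closure_iff_nhds] at hx
  obtain ⟨y, hy1, hy2⟩ := hx _ hmem
  exact hy1 (rad_ne_zero hp hy2).2

theorem hasCompactSupport_rad {p : ℝ} {g : ℝ → ℝ} (hg : Bump1 g) :
    HasCompactSupport (rad p g : E n → ℝ) := by
  obtain ⟨R, hR0, hR⟩ := hg.exists_bound
  refine HasCompactSupport.intro (isCompact_closedBall (0 : E n) (Real.exp R)) fun x hx => ?_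
  unfold rad
  have hx' : Real.exp R < ‖x‖ := by simpa using hx
  have : R < Real.log ‖x‖ := (Real.lt_log_iff_exp_lt ((Real.exp_pos _).trans hx')).2 hx'
  rw [hR _ (by rw [abs_of_pos (by linarith)]; linarith), mul_zero]

theorem test_rad {p : ℝ} (hp : p ≠ 0) {g : ℝ → ℝ} (hg : Bump1 g)
    (hsub : ∀ x : E n, x ≠ 0 → Real.log ‖x‖ ∈ tsupport g → x ∈ Ω) : Test Ω (rad p g) :=
  ⟨contDiff_rad hp hg, hasCompactSupport_rad hg,
    (tsupport_rad_subset hp hg).trans fun x hx => hsub x hx.1 hx.2⟩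

theorem Bump1.deriv {g : ℝ → ℝ} (hg : Bump1 g) : Bump1 (deriv g) :=
  ⟨(contDiff_infty_iff_deriv.1 hg.1).2, hg.2.deriv⟩

theorem Bump1.add {g h : ℝ → ℝ} (hg : Bump1 g) (hh : Bump1 h) : Bump1 (fun t => g t + h t) :=
  ⟨hg.1.add hh.1, hg.2.add hh.2⟩

theorem Bump1.const_mul {g : ℝ → ℝ} (hg : Bump1 g) (c : ℝ) : Bump1 (fun t => c * g t) :=
  ⟨contDiff_const.mul hg.1, hg.2.mul_left⟩

theorem Bump1.mul {g h : ℝ → ℝ} (hg : Bump1 g) (hh : ContDiff ℝ ∞ h) :
    Bump1 (fun t => g t * h t) := ⟨hg.1.mul hh, hg.2.mul_right⟩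

theorem Bump1.mul_left {g h : ℝ → ℝ} (hg : Bump1 g) (hh : ContDiff ℝ ∞ h) :
    Bump1 (fun t => h t * g t) := ⟨hh.mul hg.1, hg.2.mul_left⟩

/-- `∂_i (|x|^p g(log|x|)) = x_i |x|^{p-2} (p g + g')(log|x|)`. -/
theorem pd_rad {p : ℝ} (hp : p ≠ 0) {g : ℝ → ℝ} (hg : Bump1 g) (i : Fin n) (x : E n) :
    pd i (rad p g) x = x i * rad (p - 2) (fun t => p * g t + deriv g t) x := by
  by_cases h0 : x = 0
  · subst h0
    have : (rad p g : E n → ℝ) =ᶠ[𝓝 0] fun _ => (0:ℝ) := rad_eq_zero_near hp hg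
    rw [pd_congr_nhds i this, pd_const]
    simp
  · have hpos : 0 < ‖x‖ := norm_pos_iff.2 h0
    have hn : DifferentiableAt ℝ (fun x : E n => ‖x‖) x := (contDiffAt_norm ℝ h0).differentiableAt one_ne_zero
    have hnorm : pd i (fun y : E n => ‖y‖) x = x i / ‖x‖ := by
      have h1 : pd i (fun y : E n => ‖y‖ ^ 2) x = 2 * ‖x‖ * pd i (fun y : E n => ‖y‖) x := pd_sq i hn
      have h2 : (fun y : E n => ‖y‖ ^ 2) = fun y : E n => ∑ j, y j ^ 2 := by
        ext y; rw [EuclideanSpace.norm_sq_eq]; simp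
      have h3 : pd i (fun y : E n => ∑ j, y j ^ 2) x = 2 * x i := by
        have hsq : ∀ j : Fin n, DifferentiableAt ℝ (fun y : E n => y j ^ 2) x := fun j =>
          ((coord_contDiff (m := 1) j).differentiable one_ne_zero x).pow 2
        rw [pd_sum i fun j _ => hsq j]
        have : ∀ j, pd i (fun y : E n => y j ^ 2) x = 2 * x j * (if i = j then 1 else 0) := fun j => by
          rw [pd_sq i ((coord_contDiff (m := 1) j).differentiable one_ne_zero x), pd_coord]
        simp_rw [this]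
        simp
      rw [h2, h3] at h1
      field_simp
      linarith
    have hφ : HasDerivAt (fun r : ℝ => r ^ p * g (Real.log r))
        (p * ‖x‖ ^ (p - 1) * g (Real.log ‖x‖) + ‖x‖ ^ p * (deriv g (Real.log ‖x‖) * ‖x‖⁻¹)) ‖x‖ := by
      have h1 := Real.hasDerivAt_rpow_const (x := ‖x‖) (p := p) (Or.inl hpos.ne')
      have h2 : HasDerivAt (fun r => g (Real.log r)) (deriv g (Real.log ‖x‖) * ‖x‖⁻¹) ‖x‖ :=
        ((hg.1.differentiable (by simp) _).hasDerivAt).comp _ (Real.hasDerivAt_log hpos.ne')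
      exact h1.mul h2
    have e : pd i (rad p g) x = pd i (fun y : E n => (fun r : ℝ => r ^ p * g (Real.log r)) ‖y‖) x := rfl
    rw [e, pd_comp' i hφ hn, hnorm]
    unfold rad
    rw [Real.rpow_sub hpos, Real.rpow_sub hpos, Real.rpow_one, Real.rpow_two]
    field_simp

end Pool.Agent.H94.Stab
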