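import Pool.Agent.H94.Stab.Calc3

/-!
# Calculus API for MP_de3e90_an, part 4: mollification
-/

set_option autoImplicit false

open MeasureTheory Set Filter Topology
open scoped ContDiff Convolution

namespace Pool.Agent.H94.Stab

variable {n : ℕ}

/-- the bump underlying `mk` -/
noncomputable def mkB (n : ℕ) {ρ : ℝ} (h : 0 < ρ) : ContDiffBump (0 : E n) :=
  ⟨ρ / 2, ρ, by linarith, by linarith⟩

theorem mk_eq {ρ : ℝ} (h : 0 < ρ) : (mk ρ : E n → ℝ) = (mkB n h).normed volume := by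
  unfold mk mkB
  rw [dif_pos h]

theorem mk_nonneg (ρ : ℝ) (x : E n) : 0 ≤ mk ρ x := by
  by_cases h : 0 < ρ
  · rw [mk_eq h]; exact ContDiffBump.nonneg_normed _ _
  · unfold mk; rw [dif_neg h]; rfl

theorem mk_smooth (ρ : ℝ) : ContDiff ℝ ∞ (mk ρ : E n → ℝ) := by
  by_cases h : 0 < ρ
  · rw [mk_eq h]; exact ContDiffBump.contDiff_normed _
  · unfold mk; rw [dif_neg h]; exact contDiff_const

theorem mk_compact (ρ : ℝ) : HasCompactSupport (mk ρ : E n → ℝ) := by
  by_cases h : 0 < ρ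
  · rw [mk_eq h]; exact ContDiffBump.hasCompactSupport_normed _
  · unfold mk; rw [dif_neg h]; exact HasCompactSupport.zero

theorem mk_tsupport {ρ : ℝ} (h : 0 < ρ) : tsupport (mk ρ : E n → ℝ) = Metric.closedBall 0 ρ := by
  rw [mk_eq h]; exact ContDiffBump.tsupport_normed_eq _

theorem mk_eq_zero {ρ : ℝ} {x : E n} (hx : ρ ≤ ‖x‖) : mk ρ x = 0 := by
  by_cases h : 0 < ρ
  · rw [mk_eq h]
    by_contra hne
    have : x ∈ Function.support ((mkB n h).normed volume) := hne
    rw [ContDiffBump.support_normed_eq] at this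
    have h2 : ‖x‖ < ρ := by simpa [mkB] using this
    linarith
  · unfold mk; rw [dif_neg h]; rfl

theorem integral_mk {ρ : ℝ} (h : 0 < ρ) : ∫ x : E n, mk ρ x = 1 := by
  rw [mk_eq h]; exact ContDiffBump.integral_normed _

theorem mol_eq (ρ : ℝ) (g : E n → ℝ) (x : E n) : mol ρ g x = ∫ y, mk ρ (x - y) * g y := by
  unfold mol
  rw [← integral_sub_left_eq_self (fun y => mk ρ y * g (x - y)) volume x]
  simp

theorem mk_sub_smooth (ρ : ℝ) (x : E n) : ContDiff ℝ ∞ (fun y => mk ρ (x - y)) :=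
  (mk_smooth ρ).comp (contDiff_const.sub contDiff_id)

theorem mk_sub_eq_zero {ρ : ℝ} {x y : E n} (hxy : ρ ≤ ‖x - y‖) : mk ρ (x - y) = 0 := mk_eq_zero hxy

theorem tsupport_mk_sub {ρ : ℝ} (x : E n) :
    tsupport (fun y => mk ρ (x - y)) ⊆ Metric.closedBall x ρ := by
  refine closure_minimal ?_ Metric.isClosed_closedBall
  intro y hy
  rw [Metric.mem_closedBall, dist_comm, dist_eq_norm]
  by_contra hcon
  push Not at hcon
  exact hy (mk_eq_zero hcon.le)

/-- `y ↦ mk ρ (x - y)` is a test function on `Ω` if `closedBall x ρ ⊆ Ω`. -/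
theorem test_mk_sub {Ω : Set (E n)} {ρ : ℝ} {x : E n} (h : Metric.closedBall x ρ ⊆ Ω) :
    Test Ω (fun y => mk ρ (x - y)) :=
  ⟨mk_sub_smooth ρ x,
    (isCompact_closedBall x ρ).of_isClosed_subset (isClosed_tsupport _) (tsupport_mk_sub x),
    (tsupport_mk_sub x).trans h⟩

theorem mol_conv (ρ : ℝ) (g : E n → ℝ) :
    mol ρ g = (mk ρ : E n → ℝ) ⋆[ContinuousLinearMap.mul ℝ ℝ, volume] g := by
  ext x
  rw [convolution_def]
  rfl

theorem mol_smooth (ρ : ℝ) {g : E n → ℝ} (hg : LocallyIntegrable g volume) :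
    ContDiff ℝ ∞ (mol ρ g) := by
  rw [mol_conv]
  exact (mk_compact ρ).contDiff_convolution_left _ (mk_smooth ρ) hg

theorem pd_mk_sub (ρ : ℝ) (i : Fin n) (x y : E n) :
    pd i (fun y => mk ρ (x - y)) y = - pd i (mk ρ) (x - y) := by
  unfold pd
  have h1 : HasFDerivAt (fun y : E n => x - y) (-(ContinuousLinearMap.id ℝ (E n))) y := by
    simpa using (hasFDerivAt_id y).const_sub x
  have h2 : HasFDerivAt (mk ρ : E n → ℝ) (fderiv ℝ (mk ρ) (x - y)) (x - y) :=
    ((mk_smooth ρ).differentiable (by simp) _).hasFDerivAt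
  have h3 : HasFDerivAt (fun y : E n => mk ρ (x - y))
      ((fderiv ℝ (mk ρ) (x - y)).comp (-(ContinuousLinearMap.id ℝ (E n)))) y := h2.comp y h1
  rw [h3.fderiv]
  simp

/-- `∂_i (mol ρ g)(x) = - ∫ g(y) ∂_i [mk ρ (x - ·)](y) dy`. -/
theorem pd_mol (ρ : ℝ) {g : E n → ℝ} (hg : LocallyIntegrable g volume) (i : Fin n) (x : E n) :
    pd i (mol ρ g) x = - ∫ y, g y * pd i (fun y => mk ρ (x - y)) y := by
  have h1 : HasFDerivAt (mol ρ g)
      ((fderiv ℝ (mk ρ : E n → ℝ) ⋆[(ContinuousLinearMap.mul ℝ ℝ).precompL (E n), volume] g) x) x := by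
    rw [mol_conv]
    exact (mk_compact ρ).hasFDerivAt_convolution_left _ ((mk_smooth ρ).of_le one_le_infty) hg x
  unfold pd
  rw [h1.fderiv, convolution_def]
  have hint : Integrable (fun t => ((ContinuousLinearMap.mul ℝ ℝ).precompL (E n))
      (fderiv ℝ (mk ρ : E n → ℝ) t) (g (x - t))) volume := by
    have hcs : HasCompactSupport (fderiv ℝ (mk ρ : E n → ℝ)) := (mk_compact ρ).fderiv ℝ
    have hco : Continuous (fderiv ℝ (mk ρ : E n → ℝ)) := (mk_smooth ρ).continuous_fderiv (by simp)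
    exact (hcs.convolutionExists_left ((ContinuousLinearMap.mul ℝ ℝ).precompL (E n)) hco hg x)
  rw [ContinuousLinearMap.integral_apply hint, ← integral_neg,
    ← integral_sub_left_eq_self (fun t => (((ContinuousLinearMap.mul ℝ ℝ).precompL (E n))
      (fderiv ℝ (mk ρ : E n → ℝ) t) (g (x - t))) (EuclideanSpace.single i (1:ℝ))) volume x]
  congr 1; ext y
  have := pd_mk_sub ρ i x y
  unfold pd at this
  rw [this]
  simp [ContinuousLinearMap.precompL_apply]
  ring

/-- a bound for the gradient of the kernel -/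
theorem mk_gsq_bound (ρ : ℝ) : ∃ M : ℝ, 0 ≤ M ∧ ∀ x y : E n, gsq (fun y => mk ρ (x - y)) y ≤ M ^ 2 := by
  have hcont : Continuous (gsq (mk ρ : E n → ℝ)) := continuous_gsq ((mk_smooth ρ).of_le one_le_infty)
  have hsupp : HasCompactSupport (gsq (mk ρ : E n → ℝ)) := by
    refine (mk_compact ρ).of_isClosed_subset (isClosed_tsupport _) (closure_minimal ?_ (isClosed_tsupport _))
    intro x hx
    by_contra hcon
    apply hx
    unfold gsq
    refine Finset.sum_eq_zero fun i _ => ?_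
    have : pd i (mk ρ : E n → ℝ) x = 0 := by
      by_contra h
      exact hcon (tsupport_pd_subset i _ (subset_tsupport _ h))
    rw [this]; norm_num
  obtain ⟨B, hB⟩ := hcont.bounded_above_of_compact_support hsupp
  refine ⟨Real.sqrt (max B 0), Real.sqrt_nonneg _, fun x y => ?_⟩
  rw [Real.sq_sqrt (le_max_right _ _)]
  have e : gsq (fun y => mk ρ (x - y)) y = gsq (mk ρ : E n → ℝ) (x - y) := by
    unfold gsq
    refine Finset.sum_congr rfl fun i _ => ?_
    rw [pd_mk_sub]; ring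
  rw [e]
  have := hB (x - y)
  rw [Real.norm_eq_abs, abs_of_nonneg (gsq_nonneg _ _)] at this
  exact this.trans (le_max_left _ _)

end Pool.Agent.H94.Stab
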