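import Pool.Agent.H94.Stab.Calc4

/-!
# M14: from the normalised pointwise bound to the statement of the problem
-/

set_option autoImplicit false

open MeasureTheory Set Filter Topology
open scoped ContDiff

namespace Pool.Agent.H94.Stab

variable {n : ℕ}

/-- `u ∈ C^∞(closed unit ball)` is a stable solution of `-Δu = f(u)` in the unit ball. -/
structure IsStableSolution (f : ℝ → ℝ) (u : E n → ℝ) : Prop where
  smooth : ContDiffOn ℝ ∞ u (Metric.closedBall 0 1)
  eqn : ∀ x ∈ Metric.ball (0 : E n) 1, -(∑ i, pd i (pd i u) x) = f (u x)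
  stable : ∀ ξ : E n → ℝ, ContDiffOn ℝ 1 ξ (Metric.closedBall 0 1) →
    (∀ x ∈ Metric.sphere (0 : E n) 1, ξ x = 0) →
      ∫ x in Metric.ball (0 : E n) 1, deriv f (u x) * ξ x ^ 2 ≤
        ∫ x in Metric.ball (0 : E n) 1, ∑ i, pd i ξ x ^ 2

theorem pd_affine {g : E n → ℝ} (i : Fin n) (y : E n) (c : ℝ) (x : E n)
    (hg : DifferentiableAt ℝ g (y + c • x)) :
    pd i (fun x => g (y + c • x)) x = c * pd i g (y + c • x) := by
  unfold pd
  have h1 : HasFDerivAt (fun x : E n => y + c • x) (c • ContinuousLinearMap.id ℝ (E n)) x :=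
    ((hasFDerivAt_id x).const_smul c).const_add y
  have h2 : HasFDerivAt (fun x : E n => g (y + c • x))
      ((fderiv ℝ g (y + c • x)).comp (c • ContinuousLinearMap.id ℝ (E n))) x :=
    hg.hasFDerivAt.comp x h1
  rw [h2.fderiv]
  simp

theorem contDiff_affine (y : E n) (c : ℝ) : ContDiff ℝ ∞ (fun x : E n => y + c • x) :=
  contDiff_const.add (contDiff_id.const_smul c)

theorem integral_affine (G : E n → ℝ) (y : E n) (c : ℝ) :
    ∫ x, G (y + c • x) = |(c ^ n)⁻¹| * ∫ z, G z := by
  have h := MeasureTheory.Measure.integral_comp_smul (volume : Measure (E n)) (fun z => G (y + z)) c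
  simp only [finrank_euclideanSpace, Fintype.card_fin, smul_eq_mul] at h
  rw [h]
  congr 1
  exact integral_add_left_eq_self G y

/-- smooth cut-off -/
theorem contDiff_cutoff_mul {u : E n → ℝ} (hu : ContDiffOn ℝ ∞ u (Metric.closedBall 0 1))
    (χ : ContDiffBump (0 : E n)) (hχ : χ.rOut < 1) : ContDiff ℝ ∞ (fun x => χ x * u x) := by
  rw [contDiff_iff_contDiffAt]
  intro x
  by_cases hx : x ∈ Metric.ball (0 : E n) 1
  · have h1 : ContDiffAt ℝ ∞ u x :=
      hu.contDiffAt (Filter.mem_of_superset (Metric.isOpen_ball.mem_nhds hx)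
        Metric.ball_subset_closedBall)
    exact χ.contDiffAt.mul h1
  · have hmem : (Metric.closedBall (0 : E n) χ.rOut)ᶜ ∈ 𝓝 x := by
      refine Metric.isClosed_closedBall.isOpen_compl.mem_nhds ?_
      simp only [mem_compl_iff, Metric.mem_closedBall, not_le, Metric.mem_ball, not_lt] at hx ⊢
      linarith
    have : (fun x => χ x * u x) =ᶠ[𝓝 x] fun _ => (0 : ℝ) := by
      filter_upwards [hmem] with z hz
      have : χ z = 0 := by
        by_contra h
        have h2 : z ∈ Function.support χ := h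
        rw [χ.support_eq] at h2
        exact hz (Metric.ball_subset_closedBall h2)
      rw [this, zero_mul]
    exact (contDiffAt_const (c := (0 : ℝ))).congr_of_eventuallyEq this

/-- the energy density is integrable on the unit ball -/
theorem integrableOn_energy {u : E n → ℝ} (hu : ContDiffOn ℝ ∞ u (Metric.closedBall 0 1)) :
    IntegrableOn (fun x => u x ^ 2 + gsq u x) (Metric.ball (0 : E n) 1) volume := by
  have hud : UniqueDiffOn ℝ (Metric.closedBall (0 : E n) 1) :=
    uniqueDiffOn_convex (convex_closedBall _ _)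
      (by rw [interior_closedBall _ one_ne_zero]; exact ⟨0, by simp⟩)
  have hcont : ContinuousOn (fun x => u x ^ 2 +
      ∑ i, (fderivWithin ℝ u (Metric.closedBall 0 1) x (EuclideanSpace.single i (1:ℝ))) ^ 2)
      (Metric.closedBall (0 : E n) 1) := by
    have h1 : ContinuousOn (fderivWithin ℝ u (Metric.closedBall (0 : E n) 1)) (Metric.closedBall 0 1) :=
      hu.continuousOn_fderivWithin hud (by simp)
    refine (hu.continuousOn.pow 2).add (continuousOn_finsetSum _ fun i _ => ?_)
    exact (h1.clm_apply continuousOn_const).pow 2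
  have h2 := hcont.integrableOn_compact (μ := volume) (isCompact_closedBall (0 : E n) 1)
  have h3 := h2.mono_set (Metric.ball_subset_closedBall (x := (0 : E n)) (ε := 1))
  refine h3.congr_fun (fun x hx => ?_) measurableSet_ball
  have hmem : Metric.closedBall (0 : E n) 1 ∈ 𝓝 x :=
    Filter.mem_of_superset (Metric.isOpen_ball.mem_nhds hx) Metric.ball_subset_closedBall
  simp only [gsq, pd]
  rw [fderivWithin_of_mem_nhds hmem]

theorem main_of_pointwise (hpt : ∃ C : ℝ,
    ∀ (f F : ℝ → ℝ) (u : E n → ℝ), Stable (Metric.ball 0 1) f F u →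
      (u 0) ^ 2 ≤ C * ∫ x in Metric.ball (0 : E n) 1, (u x ^ 2 + gsq u x)) :
    ∃ C : ℝ, ∀ f : ℝ → ℝ, ContDiff ℝ 1 f → ∀ u : E n → ℝ, IsStableSolution f u →
      ∀ y : E n, ‖y‖ ≤ 1 / 2 →
        |u y| ≤ C * Real.sqrt (∫ x in Metric.ball (0 : E n) 1, (u x ^ 2 + ∑ i, pd i u x ^ 2)) := by
  obtain ⟨C₀, hC₀⟩ := hpt
  obtain ⟨C₁, hC₁, hC₁pos⟩ : ∃ C₁, C₁ = max C₀ 0 ∧ 0 ≤ C₁ := ⟨_, rfl, le_max_right _ _⟩
  have hC₁' : C₀ ≤ C₁ := by rw [hC₁]; exact le_max_left _ _
  refine ⟨Real.sqrt (C₁ * 4 ^ n), fun f hf u hu y hy => ?_⟩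
  let χ : ContDiffBump (0 : E n) := ⟨7 / 8, 15 / 16, by norm_num, by norm_num⟩
  have hχ1 : ∀ z ∈ Metric.ball (0 : E n) (7 / 8), χ z = 1 := fun z hz =>
    χ.one_of_mem_closedBall (Metric.ball_subset_closedBall hz)
  let w : E n → ℝ := fun x => χ x * u x
  have hw : ContDiff ℝ ∞ w := contDiff_cutoff_mul hu.smooth χ (by show (15/16 : ℝ) < 1; norm_num)
  have hwu : ∀ z ∈ Metric.ball (0 : E n) (7 / 8), w =ᶠ[𝓝 z] u := by
    intro z hz
    filter_upwards [Metric.isOpen_ball.mem_nhds hz] with z' hz'
    show χ z' * u z' = u z'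
    rw [hχ1 z' hz', one_mul]
  let v : E n → ℝ := fun x => w (y + (1 / 4 : ℝ) • x)
  have hv : ContDiff ℝ ∞ v := hw.comp (contDiff_affine y (1 / 4))
  have hmem : ∀ x ∈ Metric.ball (0 : E n) 1, y + (1 / 4 : ℝ) • x ∈ Metric.ball (0 : E n) (7 / 8) := by
    intro x hx
    rw [mem_ball_zero_iff] at hx ⊢
    calc ‖y + (1 / 4 : ℝ) • x‖ ≤ ‖y‖ + ‖(1 / 4 : ℝ) • x‖ := norm_add_le _ _
      _ = ‖y‖ + (1 / 4) * ‖x‖ := by rw [norm_smul]; norm_num
      _ < 7 / 8 := by linarith
  have hdw : Differentiable ℝ w := hw.differentiable (by simp)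
  have hpv : ∀ i x, pd i v x = (1 / 4) * pd i w (y + (1 / 4 : ℝ) • x) := fun i x =>
    pd_affine i y (1 / 4) x (hdw _)
  have hvx : ∀ x ∈ Metric.ball (0 : E n) 1, v x = u (y + (1 / 4 : ℝ) • x) := fun x hx =>
    (hwu _ (hmem x hx)).self_of_nhds
  have hst : Stable (Metric.ball (0 : E n) 1) (fun s => (1 / 16) * f s)
      (fun s => ∫ t in (0 : ℝ)..s, (1 / 16) * f t) v := by
    refine ⟨Metric.isOpen_ball, hv, contDiff_const.mul hf, fun s => ?_, fun x hx => ?_, fun ξ hξ => ?_⟩
    · have hc : Continuous fun t => (1 / 16 : ℝ) * f t := continuous_const.mul hf.continuous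
      exact hc.integral_hasStrictDerivAt 0 s |>.hasDerivAt
    · have h1 : ∀ i, pd i (pd i v) x = (1 / 16) * pd i (pd i u) (y + (1 / 4 : ℝ) • x) := by
        intro i
        have e1 : pd i v = fun x => (1 / 4) * (pd i w) (y + (1 / 4 : ℝ) • x) := funext (hpv i)
        have hd : Differentiable ℝ (pd i w) := (contDiff_pd_infty i hw).differentiable (by simp)
        have hd2 : DifferentiableAt ℝ (fun x => (pd i w) (y + (1 / 4 : ℝ) • x)) x :=
          (hd _).comp x ((differentiableAt_id.const_smul (1/4 : ℝ)).const_add y)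
        rw [e1, pd_const_mul i _ hd2, pd_affine i y (1 / 4) x (hd _)]
        have e2 : pd i (pd i w) (y + (1 / 4 : ℝ) • x) = pd i (pd i u) (y + (1 / 4 : ℝ) • x) := by
          apply pd_congr_nhds
          have h3 : ∀ᶠ z in 𝓝 (y + (1 / 4 : ℝ) • x), z ∈ Metric.ball (0 : E n) (7 / 8) :=
            Metric.isOpen_ball.mem_nhds (hmem x hx)
          filter_upwards [h3] with z hz
          exact pd_congr_nhds i (hwu z hz)
        rw [e2]; ring
      simp_rw [h1]
      rw [← Finset.mul_sum]
      have h4 := hu.eqn _ (Metric.ball_subset_ball (by norm_num) (hmem x hx))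
      rw [hvx x hx, ← h4]; ring
    · -- stability
      have hdξ : Differentiable ℝ ξ := hξ.smooth.differentiable (by simp)
      let ζ : E n → ℝ := fun z => ξ (-(4 : ℝ) • y + (4 : ℝ) • z)
      have hζc : ContDiff ℝ ∞ ζ := hξ.smooth.comp (contDiff_affine _ _)
      have hζx : ∀ x, ζ (y + (1 / 4 : ℝ) • x) = ξ x := by
        intro x
        show ξ _ = ξ x
        congr 1
        rw [smul_add, smul_smul]
        norm_num
      have hζ0 : ∀ z, z ∉ Metric.ball (0 : E n) (7 / 8) → ζ z = 0 := by
        intro z hz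
        by_contra hne
        have h5 : (-(4 : ℝ) • y + (4 : ℝ) • z) ∈ Metric.ball (0 : E n) 1 := by
          by_contra h6
          exact hne (hξ.zero_of_notMem h6)
        have h7 := hmem _ h5
        have h8 : y + (1 / 4 : ℝ) • (-(4 : ℝ) • y + (4 : ℝ) • z) = z := by
          rw [smul_add, smul_smul, smul_smul]
          norm_num
        rw [h8] at h7
        exact hz h7
      have hs := hu.stable ζ (hζc.of_le one_le_infty).contDiffOn (fun x hx => hζ0 x (by
        rw [mem_ball_zero_iff]
        rw [mem_sphere_zero_iff_norm] at hx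
        rw [hx]; norm_num))
      have hpζ : ∀ i z, pd i ζ z = 4 * pd i ξ (-(4 : ℝ) • y + (4 : ℝ) • z) := fun i z =>
        pd_affine i _ 4 z (hdξ _)
      -- extend both integrals to the whole space
      have e1 : ∫ x in Metric.ball (0 : E n) 1, deriv f (u x) * ζ x ^ 2 =
          ∫ x, deriv f (w x) * ζ x ^ 2 := by
        rw [← integral_indicator measurableSet_ball]
        congr 1; ext x
        by_cases hx : x ∈ Metric.ball (0 : E n) (7 / 8)
        · rw [indicator_of_mem (Metric.ball_subset_ball (by norm_num) hx), (hwu x hx).self_of_nhds]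
        · have hz := hζ0 x hx
          have e0 : deriv f (w x) * ζ x ^ 2 = 0 := by rw [hz]; ring
          rw [e0]
          by_cases hx1 : x ∈ Metric.ball (0 : E n) 1
          · rw [indicator_of_mem hx1, hz]; ring
          · rw [indicator_of_notMem hx1]
      have e2 : ∫ x in Metric.ball (0 : E n) 1, ∑ i, pd i ζ x ^ 2 = ∫ x, ∑ i, pd i ζ x ^ 2 := by
        rw [← integral_indicator measurableSet_ball]
        congr 1; ext x
        by_cases hx : x ∈ Metric.ball (0 : E n) 1
        · rw [indicator_of_mem hx]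
        · rw [indicator_of_notMem hx]
          symm
          refine Finset.sum_eq_zero fun i _ => ?_
          have h9 : pd i ζ x = 0 := by
            have h10 : ζ =ᶠ[𝓝 x] fun _ => (0 : ℝ) := by
              have h11 : (Metric.closedBall (0 : E n) (7 / 8))ᶜ ∈ 𝓝 x := by
                refine Metric.isClosed_closedBall.isOpen_compl.mem_nhds ?_
                simp only [mem_compl_iff, Metric.mem_closedBall, not_le, Metric.mem_ball, not_lt] at hx ⊢
                linarith
              filter_upwards [h11] with z hz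
              exact hζ0 z fun h => hz (Metric.ball_subset_closedBall h)
            rw [pd_congr_nhds i h10, pd_const]
          rw [h9]; norm_num
      rw [e1, e2] at hs
      -- change of variables
      have hcv : ∀ G : E n → ℝ, ∫ x, G (y + (1 / 4 : ℝ) • x) = |((1 / 4 : ℝ) ^ n)⁻¹| * ∫ z, G z :=
        fun G => integral_affine G y (1 / 4)
      have i1 : ∫ x, deriv f (v x) * ξ x ^ 2 =
          |((1 / 4 : ℝ) ^ n)⁻¹| * ∫ x, deriv f (w x) * ζ x ^ 2 := by
        rw [← hcv (fun z => deriv f (w z) * ζ z ^ 2)]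
        congr 1; ext x
        rw [hζx]
      have i2 : ∫ x, ∑ i, pd i ξ x ^ 2 = (1 / 16) * (|((1 / 4 : ℝ) ^ n)⁻¹| * ∫ x, ∑ i, pd i ζ x ^ 2) := by
        rw [← hcv (fun z => ∑ i, pd i ζ z ^ 2), ← integral_const_mul]
        congr 1; ext x
        rw [Finset.mul_sum]
        refine Finset.sum_congr rfl fun i _ => ?_
        rw [hpζ]
        have : -(4 : ℝ) • y + (4 : ℝ) • (y + (1 / 4 : ℝ) • x) = x := by
          rw [smul_add, smul_smul]; norm_num
        rw [this]; ring
      have hdv : ∀ x, deriv (fun s => (1 / 16) * f s) (v x) = (1 / 16) * deriv f (v x) := fun x =>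
        deriv_const_mul _ (hf.differentiable (by norm_num) _)
      unfold Qf
      simp_rw [hdv]
      have hcf : Continuous fun x => deriv f (v x) :=
        (hf.continuous_deriv (by norm_num)).comp hv.continuous
      have j1 : Integrable (fun x => gsq ξ x) volume := by
        unfold gsq
        refine integrable_finsetSum _ fun i _ => ?_
        have : (fun x => pd i ξ x ^ 2) = fun x => pd i ξ x * pd i ξ x := by ext x; ring
        rw [this]
        exact (hξ.pd i).integrable_mul (hξ.pd i).continuous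
      have j2 : Integrable (fun x => (1 / 16) * deriv f (v x) * ξ x ^ 2) volume := by
        have : (fun x => (1 / 16) * deriv f (v x) * ξ x ^ 2) =
            fun x => ((1 / 16) * deriv f (v x) * ξ x) * ξ x := by ext x; ring
        rw [this]
        exact hξ.integrable_mul ((continuous_const.mul hcf).mul hξ.continuous)
      rw [integral_sub j1 j2]
      have j3 : ∫ x, (1 / 16) * deriv f (v x) * ξ x ^ 2 = (1 / 16) * ∫ x, deriv f (v x) * ξ x ^ 2 := by
        rw [← integral_const_mul]; congr 1; ext x; ring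
      have j4 : ∫ x, gsq ξ x = ∫ x, ∑ i, pd i ξ x ^ 2 := rfl
      rw [j3, j4, i1, i2]
      have hab : (0:ℝ) ≤ |((1 / 4 : ℝ) ^ n)⁻¹| := abs_nonneg _
      have := mul_le_mul_of_nonneg_left hs hab
      linarith
  -- apply the normalised bound
  have hb := hC₀ _ _ v hst
  have hv0 : v 0 = u y := by
    rw [hvx 0 (by simp)]; simp
  rw [hv0] at hb
  have hint := integrableOn_energy hu.smooth
  have hI0 : 0 ≤ ∫ x in Metric.ball (0 : E n) 1, (u x ^ 2 + gsq u x) :=
    integral_nonneg fun x => add_nonneg (sq_nonneg _) (gsq_nonneg _ _)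
  have hle : ∫ x in Metric.ball (0 : E n) 1, (v x ^ 2 + gsq v x) ≤
      4 ^ n * ∫ x in Metric.ball (0 : E n) 1, (u x ^ 2 + gsq u x) := by
    -- pointwise bound and change of variables
    let G : E n → ℝ := indicator (Metric.ball (0 : E n) 1) (fun z => u z ^ 2 + gsq u z)
    have hG : Integrable G volume := (integrable_indicator_iff measurableSet_ball).2 hint
    have hG0 : ∀ z, 0 ≤ G z := fun z =>
      indicator_nonneg (fun z _ => add_nonneg (sq_nonneg _) (gsq_nonneg _ _)) z
    have h1 : ∀ x ∈ Metric.ball (0 : E n) 1, v x ^ 2 + gsq v x ≤ G (y + (1 / 4 : ℝ) • x) := by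
      intro x hx
      have hz := hmem x hx
      have hz1 : y + (1 / 4 : ℝ) • x ∈ Metric.ball (0 : E n) 1 :=
        Metric.ball_subset_ball (by norm_num) hz
      show _ ≤ indicator _ _ _
      rw [indicator_of_mem hz1, hvx x hx]
      have : gsq v x = (1 / 16) * gsq u (y + (1 / 4 : ℝ) • x) := by
        unfold gsq
        rw [Finset.mul_sum]
        refine Finset.sum_congr rfl fun i _ => ?_
        rw [hpv, pd_congr_nhds i (hwu _ hz)]; ring
      rw [this]
      have := gsq_nonneg u (y + (1 / 4 : ℝ) • x)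
      linarith
    have hGc : Integrable (fun x => G (y + (1 / 4 : ℝ) • x)) volume := by
      have h3 : Integrable (fun z => G (y + z)) volume := hG.comp_add_left y
      exact h3.comp_smul (by norm_num)
    calc ∫ x in Metric.ball (0 : E n) 1, (v x ^ 2 + gsq v x)
        ≤ ∫ x in Metric.ball (0 : E n) 1, G (y + (1 / 4 : ℝ) • x) := by
          refine setIntegral_mono_on ?_ hGc.integrableOn measurableSet_ball h1
          exact (((hv.continuous.pow 2).add (continuous_gsq (hv.of_le one_le_infty))).continuousOn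
            |>.integrableOn_compact (isCompact_closedBall (0 : E n) 1)).mono_set
              Metric.ball_subset_closedBall
      _ ≤ ∫ x, G (y + (1 / 4 : ℝ) • x) :=
          setIntegral_le_integral hGc (Filter.Eventually.of_forall fun x => hG0 _)
      _ = |((1 / 4 : ℝ) ^ n)⁻¹| * ∫ z, G z := integral_affine G y (1 / 4)
      _ = 4 ^ n * ∫ x in Metric.ball (0 : E n) 1, (u x ^ 2 + gsq u x) := by
          rw [integral_indicator measurableSet_ball]
          congr 1
          rw [abs_of_pos (by positivity), one_div, inv_pow, inv_inv]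
  have hfin : (u y) ^ 2 ≤ (C₁ * 4 ^ n) * ∫ x in Metric.ball (0 : E n) 1, (u x ^ 2 + gsq u x) := by
    have h0 : 0 ≤ ∫ x in Metric.ball (0 : E n) 1, (v x ^ 2 + gsq v x) :=
      integral_nonneg fun x => add_nonneg (sq_nonneg _) (gsq_nonneg _ _)
    calc (u y) ^ 2 ≤ C₀ * ∫ x in Metric.ball (0 : E n) 1, (v x ^ 2 + gsq v x) := hb
      _ ≤ C₁ * ∫ x in Metric.ball (0 : E n) 1, (v x ^ 2 + gsq v x) :=
          mul_le_mul_of_nonneg_right hC₁' h0
      _ ≤ C₁ * (4 ^ n * ∫ x in Metric.ball (0 : E n) 1, (u x ^ 2 + gsq u x)) :=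
          mul_le_mul_of_nonneg_left hle hC₁pos
      _ = _ := by ring
  rw [← Real.sqrt_mul (by positivity), ← Real.sqrt_sq_eq_abs]
  exact Real.sqrt_le_sqrt hfin

end Pool.Agent.H94.Stab
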