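import Pool.Agent.H94.Stab.Calc4
import Pool.Agent.H87.Stab.M9
import Pool.Agent.H69.Stab.M10a

/-!
# Normalisation of the additive constants (module M9b of MP_de3e90_an)
-/

set_option autoImplicit false

open MeasureTheory Set Filter Topology
open scoped ContDiff

namespace Pool.Agent.H94.Stab

open H69 (AA AA_compact AA_zero AA_mono AA_add abs_fderiv_le)

variable {n : ℕ} {u : ℕ → E n → ℝ} {f F : ℕ → ℝ → ℝ}

namespace M9b

theorem contG (h : BadSeq u f F) (k : ℕ) : Continuous (fun y => F k (u k y)) := by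
  have h1 : Continuous (F k) := continuous_iff_continuousAt.2 fun s =>
    ((h.st k).F_deriv s).continuousAt
  exact h1.comp (h.st k).smooth.continuous

theorem grad_mol (hn : 3 ≤ n) (h : BadSeq u f F) {ρ r Λ : ℝ} (hρ : 0 < ρ) (hr : ρ < r) :
    ∀ ε > 0, ∀ᶠ k in atTop, ∀ x ∈ AA n r Λ,
      ‖fderiv ℝ (mol ρ (fun y => F k (u k y))) x‖ ≤ ε := by
  intro ε hε
  obtain ⟨e, he, hk⟩ := b_gradF hn h (K := AA n (r - ρ) (Λ + ρ)) (AA_compact _ _)
    (AA_zero (by linarith))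
  obtain ⟨M, hM0, hM⟩ := mk_gsq_bound (n := n) ρ
  have h1 : Tendsto (fun k => (n : ℝ) * (e k * M) ^ 2) atTop (𝓝 0) := by
    have := ((he.mul_const M).pow 2).const_mul (n : ℝ)
    simpa using this
  filter_upwards [hk, h1.eventually_le_const (show (0:ℝ) < ε ^ 2 by positivity)] with k hk hek
  intro x hx
  have hsub : Metric.closedBall x ρ ⊆ AA n (r - ρ) (Λ + ρ) := by
    intro y hy
    have h2 := AA_add hx (y := y - x) (r := ρ) (by rwa [← dist_eq_norm])
    rwa [add_sub_cancel] at h2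
  have hpd : ∀ i, |pd i (mol ρ (fun y => F k (u k y))) x| ≤ e k * M := by
    intro i
    rw [pd_mol ρ (contG h k).locallyIntegrable, abs_neg]
    refine hk i (fun y => mk ρ (x - y)) M (test_mk_sub ?_) ((tsupport_mk_sub x).trans hsub) hM0
      (hM x)
    intro y hy h0
    rw [mem_singleton_iff] at h0
    have := hsub hy
    rw [h0] at this
    exact AA_zero (by linarith) this
  have hgsq : gsq (mol ρ (fun y => F k (u k y))) x ≤ ε ^ 2 := by
    refine le_trans ?_ hek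
    unfold gsq
    calc ∑ i, pd i (mol ρ (fun y => F k (u k y))) x ^ 2 ≤ ∑ _i : Fin n, (e k * M) ^ 2 := by
          refine Finset.sum_le_sum fun i _ => ?_
          rw [← sq_abs]
          exact pow_le_pow_left₀ (abs_nonneg _) (hpd i) 2
      _ = (n : ℝ) * (e k * M) ^ 2 := by simp
  refine ContinuousLinearMap.opNorm_le_bound _ hε.le fun v => ?_
  rw [Real.norm_eq_abs]
  refine (abs_fderiv_le _ x v).trans ?_
  rw [mul_comm]
  refine mul_le_mul_of_nonneg_right ?_ (norm_nonneg _)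
  unfold gr
  rw [Real.sqrt_le_left hε.le]
  exact hgsq

theorem exists_orth (hn : 3 ≤ n) (x x' : E n) :
    ∃ e : E n, ‖e‖ = 1 ∧ inner ℝ x e = 0 ∧ inner ℝ x' e = 0 := by
  let S : Submodule ℝ (E n) := Submodule.span ℝ {x, x'}
  have h1 : Module.finrank ℝ S ≤ 2 := by
    have := finrank_span_le_card (R := ℝ) ({x, x'} : Set (E n))
    refine this.trans ?_
    rw [Set.toFinset_insert, Set.toFinset_singleton]
    exact Finset.card_le_two
  have h2 := Submodule.finrank_add_finrank_orthogonal S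
  rw [finrank_euclideanSpace_fin] at h2
  have h3 : Sᗮ ≠ ⊥ := by
    intro h
    rw [h, finrank_bot] at h2
    omega
  obtain ⟨v, hv, hv0⟩ := Submodule.exists_mem_ne_zero_of_ne_bot h3
  have hvn : ‖v‖ ≠ 0 := norm_ne_zero_iff.2 hv0
  refine ⟨(‖v‖)⁻¹ • v, ?_, ?_, ?_⟩
  · rw [norm_smul, norm_inv, norm_norm, inv_mul_cancel₀ hvn]
  · rw [inner_smul_right, (Submodule.mem_orthogonal S v).1 hv x (Submodule.subset_span (by simp)),
      mul_zero]
  · rw [inner_smul_right, (Submodule.mem_orthogonal S v).1 hv x' (Submodule.subset_span (by simp)),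
      mul_zero]

theorem seg_le {g : E n → ℝ} (hg : Differentiable ℝ g) {A : Set (E n)} {C : ℝ}
    (hb : ∀ z ∈ A, ‖fderiv ℝ g z‖ ≤ C) {x y : E n} (hseg : segment ℝ x y ⊆ A) :
    |g x - g y| ≤ C * ‖x - y‖ := by
  have := (convex_segment x y).norm_image_sub_le_of_norm_fderiv_le (f := g) (𝕜 := ℝ)
    (fun z _ => hg z) (fun z hz => hb z (hseg hz)) (right_mem_segment ℝ x y)
    (left_mem_segment ℝ x y)
  rwa [Real.norm_eq_abs] at this

theorem norm_orth {z e : E n} (he : ‖e‖ = 1) (hz : inner ℝ z e = 0) (t : ℝ) :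
    ‖z + t • e‖ ^ 2 = ‖z‖ ^ 2 + t ^ 2 := by
  rw [norm_add_sq_real, inner_smul_right, hz, norm_smul, he, Real.norm_eq_abs, mul_one, sq_abs]
  ring

theorem seg1 {x e : E n} {r Λ : ℝ} (hr : 0 < r) (hx : x ∈ AA n r Λ) (he : ‖e‖ = 1)
    (hxe : inner ℝ x e = 0) : segment ℝ x (x + Λ • e) ⊆ AA n r (2 * Λ) := by
  have hΛ : 0 < Λ := lt_of_lt_of_le hr (hx.1.trans hx.2)
  rw [segment_eq_image']
  rintro _ ⟨t, ⟨ht0, ht1⟩, rfl⟩
  simp only [add_sub_cancel_left]
  rw [smul_smul]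
  have h1 := norm_orth he hxe (t * Λ)
  have h2 := hx.1
  have h3 := hx.2
  have h5 : (t * Λ) ^ 2 ≤ Λ ^ 2 := by
    have : t * Λ ≤ Λ := mul_le_of_le_one_left hΛ.le ht1
    exact pow_le_pow_left₀ (by positivity) this 2
  have h6 : ‖x‖ ^ 2 ≤ Λ ^ 2 := pow_le_pow_left₀ (norm_nonneg _) h3 2
  have h7 : r ^ 2 ≤ ‖x‖ ^ 2 := pow_le_pow_left₀ hr.le h2 2
  constructor
  · exact le_of_sq_le_sq (by nlinarith [sq_nonneg (t * Λ)]) (norm_nonneg _)
  · exact le_of_sq_le_sq (by nlinarith) (by positivity)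

theorem seg2 {x x' e : E n} {r Λ : ℝ} (hr : 0 < r) (hx : x ∈ AA n r Λ) (hx' : x' ∈ AA n r Λ)
    (he : ‖e‖ = 1) (hxe : inner ℝ x e = 0) (hxe' : inner ℝ x' e = 0) :
    segment ℝ (x + Λ • e) (x' + Λ • e) ⊆ AA n r (2 * Λ) := by
  have hΛ : 0 < Λ := lt_of_lt_of_le hr (hx.1.trans hx.2)
  rw [segment_eq_image]
  rintro _ ⟨t, ⟨ht0, ht1⟩, rfl⟩
  have e1 : (1 - t) • (x + Λ • e) + t • (x' + Λ • e) = ((1 - t) • x + t • x') + Λ • e := by
    module
  simp only
  rw [e1]
  have h0 : inner ℝ ((1 - t) • x + t • x') e = 0 := by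
    rw [inner_add_left, inner_smul_left, inner_smul_left, hxe, hxe']
    simp
  have h1 := norm_orth he h0 Λ
  have h2 : ‖(1 - t) • x + t • x'‖ ≤ Λ := by
    refine (norm_add_le _ _).trans ?_
    rw [norm_smul, norm_smul, Real.norm_of_nonneg (by linarith), Real.norm_of_nonneg ht0]
    have := mul_le_mul_of_nonneg_left hx.2 (by linarith : 0 ≤ 1 - t)
    have := mul_le_mul_of_nonneg_left hx'.2 ht0
    linarith
  have h3 : ‖(1 - t) • x + t • x'‖ ^ 2 ≤ Λ ^ 2 := pow_le_pow_left₀ (norm_nonneg _) h2 2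
  have h4 : r ^ 2 ≤ Λ ^ 2 := pow_le_pow_left₀ hr.le (hx.1.trans hx.2) 2
  constructor
  · exact le_of_sq_le_sq (by nlinarith [sq_nonneg ‖(1 - t) • x + t • x'‖]) (norm_nonneg _)
  · exact le_of_sq_le_sq (by nlinarith) (by positivity)

theorem osc (hn : 3 ≤ n) (h : BadSeq u f F) {ρ r Λ : ℝ} (hρ : 0 < ρ) (hr : ρ < r) (hΛ : 0 < Λ) :
    ∀ ε > 0, ∀ᶠ k in atTop, ∀ x ∈ AA n r Λ, ∀ x' ∈ AA n r Λ,
      |mol ρ (fun y => F k (u k y)) x - mol ρ (fun y => F k (u k y)) x'| ≤ ε := by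
  intro ε hε
  filter_upwards [grad_mol hn h (Λ := 2 * Λ) hρ hr (ε / (4 * Λ)) (by positivity)] with k hk
  intro x hx x' hx'
  obtain ⟨e, he, hxe, hxe'⟩ := exists_orth hn x x'
  have hr0 : 0 < r := hρ.trans hr
  have hd : Differentiable ℝ (mol ρ (fun y => F k (u k y))) :=
    (mol_smooth ρ (contG h k).locallyIntegrable).differentiable (by simp)
  have a1 := seg_le hd hk (seg1 hr0 hx he hxe)
  have a2 := seg_le hd hk (seg2 hr0 hx hx' he hxe hxe')
  have a3 := seg_le hd hk (seg1 hr0 hx' he hxe')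
  have n1 : ‖x - (x + Λ • e)‖ = Λ := by
    rw [sub_add_cancel_left, norm_neg, norm_smul, he, mul_one, Real.norm_of_nonneg hΛ.le]
  have n3 : ‖x' - (x' + Λ • e)‖ = Λ := by
    rw [sub_add_cancel_left, norm_neg, norm_smul, he, mul_one, Real.norm_of_nonneg hΛ.le]
  have n2 : ‖(x + Λ • e) - (x' + Λ • e)‖ ≤ 2 * Λ := by
    rw [add_sub_add_right_eq_sub]
    refine (norm_sub_le _ _).trans ?_
    linarith [hx.2, hx'.2]
  rw [n1] at a1
  rw [n3] at a3
  have a2' := a2.trans (mul_le_mul_of_nonneg_left n2 (by positivity))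
  generalize mol ρ (fun y => F k (u k y)) x = p1 at *
  generalize mol ρ (fun y => F k (u k y)) (x + Λ • e) = p2 at *
  generalize mol ρ (fun y => F k (u k y)) (x' + Λ • e) = p3 at *
  generalize mol ρ (fun y => F k (u k y)) x' = p4 at *
  have e1 : ε / (4 * Λ) * Λ = ε / 4 := by field_simp
  have e2 : ε / (4 * Λ) * (2 * Λ) = ε / 2 := by field_simp; norm_num
  rw [e1] at a1 a3
  rw [e2] at a2'
  rw [abs_le] at *
  constructor <;> linarith [a1.1, a1.2, a2'.1, a2'.2, a3.1, a3.2]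

theorem mol_close {ρ ε : ℝ} (hρ : 0 < ρ) {g : E n → ℝ} (hg : Continuous g) (x : E n)
    (h : ∀ y : E n, ‖y‖ ≤ ρ → |g (x - y) - g x| ≤ ε) : |mol ρ g x - g x| ≤ ε := by
  have hε : 0 ≤ ε := (abs_nonneg _).trans (h 0 (by simpa using hρ.le))
  have hint : Integrable (fun y => mk ρ y * g (x - y)) volume := H69.mol_integrable hρ hg x
  have hmk : Integrable (mk ρ : E n → ℝ) volume := H69.mk_integrable hρ
  have e : mol ρ g x - g x = ∫ y, mk ρ y * (g (x - y) - g x) := by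
    simp_rw [mul_sub]
    rw [integral_sub hint (hmk.mul_const _), integral_mul_const, integral_mk hρ, one_mul]
    rfl
  rw [e]
  have h2 : ‖∫ y, mk ρ y * (g (x - y) - g x)‖ ≤ ∫ y : E n, mk ρ y * ε := by
    refine norm_integral_le_of_norm_le (hmk.mul_const _) (Eventually.of_forall fun y => ?_)
    rw [norm_mul, Real.norm_of_nonneg (mk_nonneg ρ y), Real.norm_eq_abs]
    by_cases hy : ‖y‖ ≤ ρ
    · exact mul_le_mul_of_nonneg_left (h y hy) (mk_nonneg ρ y)
    · rw [mk_eq_zero (by push Not at hy; exact hy.le)]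
      simp
  rw [integral_mul_const, integral_mk hρ, one_mul, Real.norm_eq_abs] at h2
  exact h2

theorem mol_comm {ρ ρ' : ℝ} {g : E n → ℝ} (hg : Continuous g) (x : E n) :
    mol ρ' (mol ρ g) x = mol ρ (mol ρ' g) x := by
  unfold mol
  simp_rw [← integral_const_mul]
  have hc : Continuous (Function.uncurry fun (y z : E n) =>
      mk ρ' y * (mk ρ z * g (x - y - z))) := by
    have h1 : Continuous (mk ρ' : E n → ℝ) := (mk_smooth ρ').continuous
    have h2 : Continuous (mk ρ : E n → ℝ) := (mk_smooth ρ).continuous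
    unfold Function.uncurry
    fun_prop
  have hs : HasCompactSupport (Function.uncurry fun (y z : E n) =>
      mk ρ' y * (mk ρ z * g (x - y - z))) := by
    refine HasCompactSupport.intro ((mk_compact (n := n) ρ').isCompact.prod
      (mk_compact (n := n) ρ).isCompact) fun p hp => ?_
    rw [Set.mem_prod, not_and_or] at hp
    unfold Function.uncurry
    rcases hp with hp | hp
    · simp only [image_eq_zero_of_notMem_tsupport hp, zero_mul]
    · simp only [image_eq_zero_of_notMem_tsupport hp, zero_mul, mul_zero]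
  rw [integral_integral_swap (hc.integrable_of_hasCompactSupport hs)]
  congr 1
  ext z
  congr 1
  ext y
  rw [sub_right_comm]
  ring

end M9b

open M9b in
/-- M9b: normalisation of the additive constants of `F k`. -/
theorem b_norm (hn : 3 ≤ n) (h : BadSeq u f F) : ∃ κ : ℕ → ℝ,
    ∀ K : Set (E n), IsCompact K → (0 : E n) ∉ K → ∀ ρ > 0, (∀ x ∈ K, 2 * ρ < ‖x‖) →
      ∀ ε > 0, ∀ᶠ k in atTop, ∀ x ∈ K, |mol ρ (fun y => F k (u k y) - κ k) x| ≤ ε := by
  let x₀ : E n := EuclideanSpace.single ⟨0, by omega⟩ (1 : ℝ)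
  have hx₀ : ‖x₀‖ = 1 := by simp [x₀]
  refine ⟨fun k => mol (1 / 4) (fun y => F k (u k y)) x₀, ?_⟩
  intro K hK _ ρ hρ hKρ ε hε
  obtain ⟨Λ₁, hΛ₁⟩ := hK.isBounded.exists_norm_le
  -- the far point
  obtain ⟨L, hL⟩ : ∃ L : ℝ, L = 3 * ρ + |Λ₁| + 3 := ⟨_, rfl⟩
  have hL0 : 0 < L := by rw [hL]; positivity
  have hLρ : 3 * ρ + 3 ≤ L := by rw [hL]; linarith [abs_nonneg Λ₁]
  have hx₁ : ‖L • x₀‖ = L := by rw [norm_smul, hx₀, mul_one, Real.norm_of_nonneg hL0.le]
  obtain ⟨Λ, hΛ⟩ : ∃ Λ : ℝ, Λ = L + ρ + 1 := ⟨_, rfl⟩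
  have hΛ0 : 0 < Λ := by rw [hΛ]; linarith
  have hρ4 : (0:ℝ) < 1 / 4 := by norm_num
  filter_upwards [osc hn h (r := 2 * ρ) (Λ := Λ) hρ (by linarith) hΛ0 (ε / 4) (by positivity),
    osc hn h (ρ := 1 / 4) (r := 1 / 2) (Λ := Λ) hρ4 (by norm_num) hΛ0 (ε / 4) (by positivity)]
    with k h1 h2
  intro x hx
  have hG := contG h k
  have e1 : mol ρ (fun y => F k (u k y) - mol (1 / 4) (fun y => F k (u k y)) x₀) x =
      mol ρ (fun y => F k (u k y)) x - mol (1 / 4) (fun y => F k (u k y)) x₀ := by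
    have := H69.mol_add hρ hG (continuous_const (y := -mol (1 / 4) (fun y => F k (u k y)) x₀)) x
    rw [H69.mol_const hρ] at this
    simpa [sub_eq_add_neg] using this
  rw [e1]
  have hball : ∀ y : E n, ‖y‖ ≤ ρ + 1 / 4 → 3 * ρ + 3 - (ρ + 1 / 4) ≤ ‖L • x₀ - y‖ ∧
      ‖L • x₀ - y‖ ≤ Λ := by
    intro y hy
    constructor
    · have := norm_sub_norm_le (L • x₀) y
      linarith
    · have := norm_sub_le (L • x₀) y
      linarith
  have mx : x ∈ AA n (2 * ρ) Λ := ⟨(hKρ x hx).le, by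
    have := hΛ₁ x hx; have := le_abs_self Λ₁; linarith⟩
  have mx₁ : L • x₀ ∈ AA n (2 * ρ) Λ := ⟨by linarith, by linarith⟩
  have mx₁' : L • x₀ ∈ AA n (1 / 2) Λ := ⟨by linarith, by linarith⟩
  have mx₀ : x₀ ∈ AA n (1 / 2) Λ := ⟨by linarith, by linarith⟩
  have c1 := h1 x mx _ mx₁
  have c4 := h2 _ mx₁' x₀ mx₀
  have sm1 : Continuous (mol ρ (fun y => F k (u k y))) :=
    (mol_smooth ρ hG.locallyIntegrable).continuous
  have sm2 : Continuous (mol (1 / 4) (fun y => F k (u k y))) :=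
    (mol_smooth (1 / 4) hG.locallyIntegrable).continuous
  have c2 : |mol (1 / 4) (mol ρ (fun y => F k (u k y))) (L • x₀) -
      mol ρ (fun y => F k (u k y)) (L • x₀)| ≤ ε / 4 := by
    refine mol_close hρ4 sm1 _ fun y hy => h1 _ ?_ _ mx₁
    have := hball y (by linarith)
    exact ⟨by linarith [this.1], this.2⟩
  have c3 : |mol ρ (mol (1 / 4) (fun y => F k (u k y))) (L • x₀) -
      mol (1 / 4) (fun y => F k (u k y)) (L • x₀)| ≤ ε / 4 := by
    refine mol_close hρ sm2 _ fun y hy => h2 _ ?_ _ mx₁'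
    have := hball y (by linarith)
    exact ⟨by linarith [this.1], this.2⟩
  rw [mol_comm hG] at c2
  rw [abs_le] at *
  constructor <;> linarith [c1.1, c1.2, c2.1, c2.2, c3.1, c3.2, c4.1, c4.2]

end Pool.Agent.H94.Stab
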