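import Pool.Agent.H94.Stab.Calc3
import Pool.Agent.H65.Stab.Scale

/-!
# Radial averages of a smooth function (piece of module M13 of MP_de3e90_an)
-/

set_option autoImplicit false

open MeasureTheory Set Filter Topology
open scoped ContDiff

namespace Pool.Agent.H94.Stab

open Pool.Agent.H65.Stab (zeta_nonneg zeta_zero_le zeta_zero_ge zeta_contDiff hasDerivAt_sgsq
  exists_K RR_eq RI_eq mR_lt_top integral_scale RR_scl cc_scl ae_ne_zero mR scl
  log_norm_smul norm_smul_rpow continuous_cc)

variable {n : ℕ}

theorem fderiv_self (u : E n → ℝ) (x : E n) : fderiv ℝ u x x = cc u x := by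
  have h : x = ∑ i, x i • (EuclideanSpace.single i (1 : ℝ) : E n) := by
    ext j
    simp [Finset.sum_apply, Pi.single_apply]
  conv_lhs => rw [h]
  rw [map_sum]
  unfold cc pd
  simp only [map_smul, smul_eq_mul]
  refine Finset.sum_congr rfl fun i _ => ?_
  rw [← h]

theorem bump1_zeta : Bump1 zeta :=
  ⟨zeta_contDiff, HasCompactSupport.intro (isCompact_Icc (a := (0:ℝ)) (b := 1)) fun t ht => by
    by_cases h : t ≤ 0
    · exact zeta_zero_le h
    · exact zeta_zero_ge (by
        by_contra h'
        push Not at h h'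
        exact ht ⟨h.le, h'.le⟩)⟩

/-- the weight `|y|^{-n} ζ(log|y|)` -/
noncomputable def ww (y : E n) : ℝ := rad (-(n : ℝ)) zeta y

theorem ww_contDiff (hn : 1 ≤ n) : ContDiff ℝ ∞ (ww : E n → ℝ) :=
  contDiff_rad (by
    have : (0:ℝ) < n := by exact_mod_cast hn
    exact (neg_lt_zero.2 this).ne) bump1_zeta

theorem ww_compact : HasCompactSupport (ww : E n → ℝ) := hasCompactSupport_rad bump1_zeta

theorem ww_nonneg (y : E n) : 0 ≤ ww y :=
  mul_nonneg (Real.rpow_nonneg (norm_nonneg _) _) (zeta_nonneg _)

theorem ww_zero {y : E n} (hy : Real.exp 1 ≤ ‖y‖) : ww y = 0 := by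
  unfold ww rad
  rw [zeta_zero_ge, mul_zero]
  rw [← Real.log_exp 1]
  exact Real.log_le_log (Real.exp_pos _) hy

theorem ww_pos (hn : 1 ≤ n) : 0 < ∫ y : E n, ww y := by
  have : Nonempty (Fin n) := ⟨⟨0, hn⟩⟩
  have : Nontrivial (E n) := inferInstance
  obtain ⟨t, -, ht⟩ := exists_hasDerivAt_eq_slope (fun t => sg t ^ 2) zeta (zero_lt_one' ℝ)
    (fun t _ => (hasDerivAt_sgsq t).continuousAt.continuousWithinAt) (fun t _ => hasDerivAt_sgsq t)
  have hz : zeta t = 1 := by
    rw [ht]
    simp [sg]
  obtain ⟨x, hx⟩ := NormedSpace.exists_lt_norm ℝ (E n) 0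
  have hx0 : ‖x‖ ≠ 0 := hx.ne'
  refine (ww_contDiff hn).continuous.integral_pos_of_hasCompactSupport_nonneg_nonzero ww_compact
    ww_nonneg (x := (Real.exp t / ‖x‖) • x) ?_
  have hnorm : ‖(Real.exp t / ‖x‖) • x‖ = Real.exp t := by
    rw [norm_smul, Real.norm_of_nonneg (by positivity)]
    field_simp
  unfold ww rad
  rw [hnorm, Real.log_exp, hz, mul_one]
  exact (Real.rpow_pos_of_pos (Real.exp_pos _) _).ne'

theorem ww_int (hn : 1 ≤ n) {g : E n → ℝ} (hg : Continuous g) :
    Integrable (fun y => g y * ww y) :=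
  (hg.mul (ww_contDiff hn).continuous).integrable_of_hasCompactSupport ww_compact.mul_left

/-- Cauchy–Schwarz with weight `ww`. -/
theorem ww_cs (hn : 1 ≤ n) {g : E n → ℝ} (hg : Continuous g) :
    (∫ y, g y * ww y) ^ 2 ≤ (∫ y : E n, ww y) * ∫ y, g y ^ 2 * ww y := by
  have h1 : Integrable (fun y : E n => ww y) := by
    simpa using ww_int hn (g := fun _ => (1:ℝ)) continuous_const
  have key : ∀ t : ℝ, 0 ≤ (∫ y : E n, ww y) * (t * t) + (2 * ∫ y, g y * ww y) * t +
      ∫ y, g y ^ 2 * ww y := by
    intro t
    have : (∫ y : E n, ww y) * (t * t) + (2 * ∫ y, g y * ww y) * t + ∫ y, g y ^ 2 * ww y =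
        ∫ y, (g y + t) ^ 2 * ww y := by
      have e : ∀ y, (g y + t) ^ 2 * ww y = ww y * (t * t) + (2 * (g y * ww y)) * t +
          g y ^ 2 * ww y := fun y => by ring
      simp_rw [e]
      rw [integral_add, integral_add, integral_mul_const, integral_mul_const, integral_const_mul]
      · exact h1.mul_const _
      · exact ((ww_int hn hg).const_mul 2).mul_const _
      · exact (h1.mul_const _).add (((ww_int hn hg).const_mul 2).mul_const _)
      · exact ww_int hn (hg.pow 2)
    rw [this]
    exact integral_nonneg fun y => mul_nonneg (sq_nonneg _) (ww_nonneg _)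
  have := discrim_le_zero key
  unfold discrim at this
  nlinarith

theorem hasDerivAt_exp_smul {u : E n → ℝ} (hu : ContDiff ℝ ∞ u) (y : E n) (s : ℝ) :
    HasDerivAt (fun s : ℝ => u (Real.exp s • y)) (cc u (Real.exp s • y)) s := by
  have h1 : HasDerivAt (fun s : ℝ => Real.exp s • y) (Real.exp s • y) s :=
    (Real.hasDerivAt_exp s).smul_const y
  have h2 : HasFDerivAt u (fderiv ℝ u (Real.exp s • y)) (Real.exp s • y) :=
    (hu.differentiable (by simp) _).hasFDerivAt
  have h3 := h2.comp_hasDerivAt s h1
  rw [fderiv_self] at h3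
  exact h3

/-- representation by radial averages -/
theorem radial_repr (hn : 3 ≤ n) : ∃ C > 0, ∃ c > 0, ∀ u : E n → ℝ, ContDiff ℝ ∞ u →
    ∃ U : ℝ → ℝ, Differentiable ℝ U ∧ (∀ s, deriv U s ^ 2 ≤ C * RI u s (s+1)) ∧
      Tendsto U atBot (𝓝 (c * u 0)) ∧
      (U (-2)) ^ 2 ≤ C * ∫ x in Metric.ball (0 : E n) 1, u x ^ 2 := by
  have hn1 : 1 ≤ n := by omega
  obtain ⟨K, hK0, -, -, hK⟩ := exists_K
  set c : ℝ := ∫ y : E n, ww y with hc
  have hcpos : 0 < c := ww_pos hn1
  obtain ⟨M, hM⟩ := (ww_contDiff hn1).continuous.bounded_above_of_compact_support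
    (ww_compact (n := n))
  have hM0 : 0 ≤ M := (norm_nonneg _).trans (hM 0)
  have hMw : ∀ y : E n, ww y ≤ M := fun y => (le_abs_self _).trans (hM y)
  have hr2 : (0:ℝ) < Real.exp (-2) := Real.exp_pos _
  refine ⟨c * K + c * (M * (Real.exp (-2) ^ (n:ℝ))⁻¹) + 1, by positivity, c, hcpos, fun u hu => ?_⟩
  have huc := hu.continuous
  have hcc : Continuous (cc u) := continuous_cc hu
  have hd : Differentiable ℝ u := hu.differentiable (by simp)
  let U : ℝ → ℝ := fun s => ∫ y : E n, u (Real.exp s • y) * ww y
  -- derivative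
  have hderiv : ∀ s, HasDerivAt U (∫ y : E n, cc u (Real.exp s • y) * ww y) s := by
    intro s
    obtain ⟨B, hB⟩ := (isCompact_closedBall (0 : E n) (Real.exp (s + 2))).exists_bound_of_continuousOn
      hcc.continuousOn
    have := hasDerivAt_integral_of_dominated_loc_of_deriv_le (μ := (volume : Measure (E n)))
      (F := fun s y => u (Real.exp s • y) * ww y) (F' := fun s y => cc u (Real.exp s • y) * ww y)
      (x₀ := s) (s := Metric.ball s 1) (bound := fun y => |B| * ww y)
      (Metric.ball_mem_nhds s one_pos) ?_ ?_ ?_ ?_ ?_ ?_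
    · exact this.2
    · refine Eventually.of_forall fun s => ?_
      exact ((huc.comp (continuous_const_smul _)).mul
        (ww_contDiff hn1).continuous).aestronglyMeasurable
    · exact ww_int hn1 (huc.comp (continuous_const_smul _))
    · exact ((hcc.comp (continuous_const_smul _)).mul
        (ww_contDiff hn1).continuous).aestronglyMeasurable
    · refine Eventually.of_forall fun y s' hs' => ?_
      by_cases hy : Real.exp 1 ≤ ‖y‖
      · simp [ww_zero hy]
      · push Not at hy
        rw [norm_mul, Real.norm_of_nonneg (ww_nonneg y)]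
        refine mul_le_mul_of_nonneg_right ((hB _ ?_).trans (le_abs_self _)) (ww_nonneg y)
        rw [mem_closedBall_zero_iff, norm_smul, Real.norm_of_nonneg (Real.exp_pos _).le]
        rw [Metric.mem_ball, Real.dist_eq, abs_lt] at hs'
        calc Real.exp s' * ‖y‖ ≤ Real.exp (s + 1) * Real.exp 1 := by
              refine mul_le_mul (Real.exp_le_exp.2 (by linarith)) hy.le (norm_nonneg _)
                (Real.exp_pos _).le
          _ = Real.exp (s + 2) := by rw [← Real.exp_add]; ring_nf
    · simpa using (ww_int hn1 (g := fun _ => |B|) continuous_const)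
    · refine Eventually.of_forall fun y s' _ => ?_
      exact (hasDerivAt_exp_smul hu y s').mul_const _
  refine ⟨U, fun s => (hderiv s).differentiableAt, fun s => ?_, ?_, ?_⟩
  · -- bound of the derivative
    rw [(hderiv s).deriv]
    have h1 := ww_cs hn1 (hcc.comp (continuous_const_smul (Real.exp s)))
    simp only [Function.comp] at h1
    refine h1.trans ?_
    have h2 : (∫ y : E n, cc u (Real.exp s • y) ^ 2 * ww y) = RR u (fun t => zeta (t - s)) := by
      have h3 := RR_scl hn1 (μ := 1) (Real.exp_pos s) hd zeta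
      rw [one_pow, one_mul, Real.log_exp] at h3
      rw [← h3]
      unfold RR
      refine integral_congr_ae (Eventually.of_forall fun y => ?_)
      simp only [cc_scl hd, one_mul, ww, rad]
      ring
    rw [h2]
    have h4 : RR u (fun t => zeta (t - s)) ≤ K * RI u s (s + 1) := by
      unfold RI
      have hmz : Measurable (fun t => zeta (t - s)) :=
        (zeta_contDiff.continuous.comp (continuous_sub_right s)).measurable
      rw [RR_eq hu hmz, RR_eq hu (measurable_const.indicator measurableSet_Ico), ← integral_const_mul]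
      refine integral_mono_of_nonneg (Eventually.of_forall fun t => zeta_nonneg _) ?_
        (Eventually.of_forall fun t => ?_)
      · refine Integrable.const_mul ?_ K
        rw [integrable_indicator_iff measurableSet_Ico]
        refine integrableOn_const ?_
        exact ((measure_mono (fun x hx => (le_of_lt hx.2 : x ≤ s + 1))).trans_lt
          (mR_lt_top hn1 hu (s+1))).ne
      · simp only
        by_cases ht : t ∈ Ico s (s + 1)
        · rw [indicator_of_mem ht, mul_one]
          exact hK _
        · rw [indicator_of_notMem ht, mul_zero]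
          apply le_of_eq
          by_cases h : t ≤ s
          · exact zeta_zero_le (by linarith)
          · refine zeta_zero_ge ?_
            by_contra h'
            push Not at h h'
            exact ht ⟨h.le, by linarith⟩
    have hRI : 0 ≤ RI u s (s + 1) := by
      rw [RI_eq hu]; exact measureReal_nonneg
    calc c * RR u (fun t => zeta (t - s)) ≤ c * (K * RI u s (s + 1)) :=
          mul_le_mul_of_nonneg_left h4 hcpos.le
      _ = c * K * RI u s (s + 1) := by ring
      _ ≤ _ := by
          refine mul_le_mul_of_nonneg_right ?_ hRI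
          have : 0 ≤ c * (M * (Real.exp (-2) ^ (n:ℝ))⁻¹) := by positivity
          linarith
  · -- limit at -∞
    have h1 : Continuous (fun r : ℝ => ∫ y : E n in tsupport (ww : E n → ℝ), u (r • y) * ww y) := by
      refine continuous_parametric_integral_of_continuous
        (f := fun (r : ℝ) (y : E n) => u (r • y) * ww y) ?_ ww_compact.isCompact
      exact (huc.comp (continuous_fst.smul continuous_snd)).mul
        ((ww_contDiff hn1).continuous.comp continuous_snd)
    have h2 : ∀ r : ℝ, (∫ y : E n in tsupport (ww : E n → ℝ), u (r • y) * ww y) =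
        ∫ y : E n, u (r • y) * ww y := by
      intro r
      refine setIntegral_eq_integral_of_forall_compl_eq_zero fun y hy => ?_
      rw [image_eq_zero_of_notMem_tsupport hy, mul_zero]
    simp_rw [h2] at h1
    have h3 := (h1.tendsto 0).comp Real.tendsto_exp_atBot
    have h4 : (∫ y : E n, u ((0:ℝ) • y) * ww y) = c * u 0 := by
      simp only [zero_smul]
      rw [integral_const_mul, mul_comm]
    rw [h4] at h3
    exact h3
  · -- value at -2
    have h1 := ww_cs hn1 (huc.comp (continuous_const_smul (Real.exp (-2))))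
    simp only [Function.comp] at h1
    refine h1.trans ?_
    have h2 : (∫ y : E n, u (Real.exp (-2) • y) ^ 2 * ww y) =
        (Real.exp (-2) ^ (n:ℝ))⁻¹ * ∫ x : E n, u x ^ 2 * ww ((Real.exp (-2))⁻¹ • x) := by
      rw [← integral_scale hr2 (fun x : E n => u x ^ 2 * ww ((Real.exp (-2))⁻¹ • x)),
        integral_const_mul, ← mul_assoc, inv_mul_cancel₀ (by positivity), one_mul]
      refine integral_congr_ae (Eventually.of_forall fun y => ?_)
      simp only
      rw [smul_smul, inv_mul_cancel₀ hr2.ne', one_smul]
    have h3 : (∫ x : E n, u x ^ 2 * ww ((Real.exp (-2))⁻¹ • x)) ≤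
        M * ∫ x in Metric.ball (0 : E n) 1, u x ^ 2 := by
      rw [← setIntegral_eq_integral_of_forall_compl_eq_zero (s := Metric.ball (0 : E n) 1),
        ← integral_const_mul]
      · have hint : IntegrableOn (fun x => M * u x ^ 2) (Metric.ball (0 : E n) 1) :=
          ((continuous_const.mul (huc.pow 2)).continuousOn.integrableOn_compact
            (isCompact_closedBall (0 : E n) 1)).mono_set Metric.ball_subset_closedBall
        refine integral_mono_of_nonneg (Eventually.of_forall fun x =>
          mul_nonneg (sq_nonneg _) (ww_nonneg _)) hint (Eventually.of_forall fun x => ?_)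
        simp only
        rw [mul_comm M]
        exact mul_le_mul_of_nonneg_left (hMw _) (sq_nonneg _)
      · intro x hx
        rw [ww_zero, mul_zero]
        rw [mem_ball_zero_iff, not_lt] at hx
        rw [norm_smul, Real.norm_of_nonneg (by positivity), ← Real.exp_neg, neg_neg]
        calc Real.exp 1 ≤ Real.exp 2 * 1 := by rw [mul_one]; exact Real.exp_le_exp.2 (by norm_num)
          _ ≤ Real.exp 2 * ‖x‖ := mul_le_mul_of_nonneg_left hx (Real.exp_pos _).le
    have hI : 0 ≤ ∫ x in Metric.ball (0 : E n) 1, u x ^ 2 :=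
      integral_nonneg fun _ => sq_nonneg _
    rw [h2]
    calc c * ((Real.exp (-2) ^ (n:ℝ))⁻¹ * ∫ x : E n, u x ^ 2 * ww ((Real.exp (-2))⁻¹ • x))
        ≤ c * ((Real.exp (-2) ^ (n:ℝ))⁻¹ * (M * ∫ x in Metric.ball (0 : E n) 1, u x ^ 2)) := by
          gcongr
      _ = c * (M * (Real.exp (-2) ^ (n:ℝ))⁻¹) * ∫ x in Metric.ball (0 : E n) 1, u x ^ 2 := by ring
      _ ≤ _ := by
          refine mul_le_mul_of_nonneg_right ?_ hI
          have : 0 ≤ c * K := by positivity
          linarith

end Pool.Agent.H94.Stab
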